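import Pool.Agent.U523.SF.Lin
import Pool.Agent.Y271.CO.Iso
import Pool.Agent.Y283.TO.Main

/-!
Operators whose points off a null set are either one-sided invertible or have an integrable
logarithm of the resolvent.
-/

set_option autoImplicit false

open MeasureTheory Set Metric Filter Topology
open scoped ENNReal

namespace Pool.Agent.U523.SF
open Pool.Agent.Y271.CO

variable {X : Type} [NormedAddCommGroup X] [NormedSpace ℂ X] [CompleteSpace X]

/-- the alternatives for the points `z` off the null set `Γ`: `A - z` is right invertible with a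
kernel, or left invertible with a cokernel, or invertible with a bound for the resolvent -/
structure Data (A : X →L[ℂ] X) (Γ : Set ℂ) (R : ℝ) (H : ℂ → ℝ≥0∞) : Prop where
  null : volume Γ = 0
  fin : ∫⁻ z in ball (0:ℂ) R, H z ≠ ⊤
  alt : ∀ z : ℂ, ‖z‖ ≤ R → z ∉ Γ →
    (∃ (J : X →L[ℂ] X) (x : X), (A - z • (1 : X →L[ℂ] X)) * J = 1 ∧ x ≠ 0 ∧
      (A - z • (1 : X →L[ℂ] X)) x = 0) ∨
    (∃ (J : X →L[ℂ] X) (y : X →L[ℂ] ℂ), J * (A - z • (1 : X →L[ℂ] X)) = 1 ∧ y ≠ 0 ∧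
      y.comp (A - z • (1 : X →L[ℂ] X)) = 0) ∨
    (z ∈ resolventSet ℂ A ∧ ENNReal.ofReal (Real.posLog ‖resolvent A z‖) ≤ H z)

theorem hyper_of_eig (T : X →L[ℂ] X) {z : ℂ} {x : X} (hx : x ≠ 0) (h : T x = z • x) :
    (∃ c : ℂ, T = c • (1 : X →L[ℂ] X)) ∨ HasHyper T := by
  by_cases hc : ∃ c : ℂ, T = c • (1 : X →L[ℂ] X)
  · exact Or.inl hc
  · right
    push Not at hc
    exact Pool.Agent.Y283.TO.hyp_of_eig T hc z x hx h

theorem hyper_of_coeig (T : X →L[ℂ] X) {z : ℂ} {y : X →L[ℂ] ℂ} (hy : y ≠ 0)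
    (h : y.comp T = z • y) : (∃ c : ℂ, T = c • (1 : X →L[ℂ] X)) ∨ HasHyper T := by
  by_cases hc : ∃ c : ℂ, T = c • (1 : X →L[ℂ] X)
  · exact Or.inl hc
  · right
    push Not at hc
    exact Pool.Agent.Y283.TO.hyp_of_coeig T hc z y hy h

/-- a point of the spectrum off the null set: all approximable perturbations -/
theorem gen_index {A : X →L[ℂ] X} {Γ : Set ℂ} {R : ℝ} {H : ℂ → ℝ≥0∞} (D : Data A Γ R H) {z : ℂ}
    (hz : z ∈ spectrum ℂ A) (hzR : ‖z‖ ≤ R) (hzΓ : z ∉ Γ) (K : X →L[ℂ] X) (hK : Approximable K) :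
    (∃ c : ℂ, A + K = c • (1 : X →L[ℂ] X)) ∨ HasHyper (A + K) := by
  rcases D.alt z hzR hzΓ with ⟨J, x, h1, h2, h3⟩ | ⟨J, y, h1, h2, h3⟩ | ⟨h1, -⟩
  · obtain ⟨x', hx', h4⟩ := eig_stable _ J K h1 h2 h3 hK
    refine hyper_of_eig (A + K) (z := z) hx' ?_
    have h5 : (A - z • (1 : X →L[ℂ] X) + K) x' = (A + K) x' - z • x' := by
      simp only [add_apply, sub_apply, smul_apply, one_apply_eq_self]
      abel
    rw [h5] at h4
    exact sub_eq_zero.1 h4
  · obtain ⟨y', hy', h4⟩ := coeig_stable _ J K h1 h2 h3 hK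
    refine hyper_of_coeig (A + K) (z := z) hy' ?_
    have h5 : y'.comp (A - z • (1 : X →L[ℂ] X) + K) = y'.comp (A + K) - z • y' := by
      ext v
      simp only [ContinuousLinearMap.comp_apply, add_apply, sub_apply, smul_apply,
        one_apply_eq_self, map_add, map_sub, map_smul]
      ring
    rw [h5] at h4
    exact sub_eq_zero.1 h4
  · exact absurd h1 hz

/-- no such point: the logarithm of the resolvent is integrable -/
theorem gen_int {A : X →L[ℂ] X} {Γ : Set ℂ} {R : ℝ} {H : ℂ → ℝ≥0∞} (D : Data A Γ R H)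
    (hno : ∀ z : ℂ, ‖z‖ ≤ R → z ∉ Γ → z ∉ spectrum ℂ A) :
    volume (spectrum ℂ A ∩ ball 0 R) = 0 ∧
      IntegrableOn (fun z : ℂ => Real.posLog ‖resolvent A z‖) (ball 0 R) := by
  have hsr : spectrum ℂ A ∩ ball 0 R ⊆ Γ := by
    rintro z ⟨hz, hzR⟩
    by_contra hc
    exact hno z (mem_ball_zero_iff.1 hzR).le hc hz
  refine ⟨measure_mono_null hsr D.null, ?_⟩
  have key : ∀ z : ℂ, ‖z‖ ≤ R → z ∉ Γ →
      ENNReal.ofReal (Real.posLog ‖resolvent A z‖) ≤ H z := by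
    intro z hzR hzΓ
    have hres : IsUnit (algebraMap ℂ (X →L[ℂ] X) z - A) := by
      by_contra hc
      exact hno z hzR hzΓ (spectrum.mem_iff.2 hc)
    obtain ⟨u, hu⟩ := hres
    obtain ⟨v, hv1, hv2⟩ : ∃ v : X →L[ℂ] X, (A - z • (1 : X →L[ℂ] X)) * v = 1 ∧
        v * (A - z • (1 : X →L[ℂ] X)) = 1 := by
      have h1 : A - z • (1 : X →L[ℂ] X) = -(u : X →L[ℂ] X) := by
        rw [hu, Algebra.algebraMap_eq_smul_one, neg_sub]
      refine ⟨-((u⁻¹ : (X →L[ℂ] X)ˣ) : X →L[ℂ] X), ?_, ?_⟩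
      · rw [h1, neg_mul_neg, Units.mul_inv]
      · rw [h1, neg_mul_neg, Units.inv_mul]
    rcases D.alt z hzR hzΓ with ⟨J, x, h1, h2, h3⟩ | ⟨J, y, h1, h2, h3⟩ | ⟨-, h1⟩
    · exfalso
      apply h2
      have h4 : (v * (A - z • (1 : X →L[ℂ] X))) x = 0 := by
        rw [mul_apply_eq_comp, h3, map_zero]
      rwa [hv2] at h4
    · exfalso
      apply h2
      ext w
      have h4 : y (((A - z • (1 : X →L[ℂ] X)) * v) w) = 0 :=
        congrArg (fun S : X →L[ℂ] ℂ => S (v w)) h3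
      rwa [hv1] at h4
    · exact h1
  have hmeas : StronglyMeasurable fun z : ℂ => resolvent A z :=
    Pool.Agent.W610.HY.Fin.hMEAS (X →L[ℂ] X) A
  refine ⟨(Real.continuous_posLog.comp_stronglyMeasurable hmeas.norm).aestronglyMeasurable, ?_⟩
  rw [hasFiniteIntegral_iff_ofReal (ae_of_all _ fun z => Real.posLog_nonneg)]
  have h1 : ∀ᵐ z ∂((volume : Measure ℂ).restrict (ball 0 R)),
      ENNReal.ofReal (Real.posLog ‖resolvent A z‖) ≤ H z := by
    have h2 : ∀ᵐ z ∂((volume : Measure ℂ).restrict (ball 0 R)), z ∉ Γ := by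
      rw [ae_iff]
      simp only [not_not]
      exact le_antisymm ((Measure.restrict_apply_le _ _).trans D.null.le) bot_le
    filter_upwards [h2, ae_restrict_mem measurableSet_ball] with z hz1 hz2
    exact key z (mem_ball_zero_iff.1 hz2).le hz1
  exact (lintegral_mono_ae h1).trans_lt (lt_top_iff_ne_top.2 D.fin)

/-- perturbations of finite rank -/
theorem gen_finite {A : X →L[ℂ] X} {Γ : Set ℂ} {R : ℝ} {H : ℂ → ℝ≥0∞} (D : Data A Γ R H)
    (hW : volume (spectrum ℂ A ∩ ball 0 R) = 0 →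
      (weyl A ∩ ball 0 R).Nonempty ∧ (weyl A).Nontrivial) (K : X →L[ℂ] X)
    (hK : FiniteDimensional ℂ (LinearMap.range (K : X →ₗ[ℂ] X))) :
    dimH {κ : ℂ | ¬ ((∃ c : ℂ, A + κ • K = c • (1 : X →L[ℂ] X)) ∨ HasHyper (A + κ • K))} = 0 := by
  by_cases hno : ∀ z : ℂ, ‖z‖ ≤ R → z ∉ Γ → z ∉ spectrum ℂ A
  · obtain ⟨h0, hI⟩ := gen_int D hno
    obtain ⟨h1, h2⟩ := hW h0
    refine le_antisymm ((dimH_mono fun κ hκ => ?_).trans
      (main_weyl A K hK isOpen_ball h0 hI h1 h2).le) zero_le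
    exact fun h => hκ (Or.inr h)
  · push Not at hno
    obtain ⟨z, hz1, hz2, hz3⟩ := hno
    have h : {κ : ℂ | ¬ ((∃ c : ℂ, A + κ • K = c • (1 : X →L[ℂ] X)) ∨ HasHyper (A + κ • K))} =
        ∅ := by
      ext κ
      simp only [mem_setOf_eq, mem_empty_iff_false, iff_false, not_not]
      refine gen_index D hz3 hz1 hz2 (κ • K) (approx_of_finite _ ?_)
      have h1 : LinearMap.range ((κ • K : X →L[ℂ] X) : X →ₗ[ℂ] X) ≤
          LinearMap.range (K : X →ₗ[ℂ] X) := by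
        rintro _ ⟨v, rfl⟩
        refine ⟨κ • v, ?_⟩
        simp
      exact Submodule.finiteDimensional_of_le h1
    rw [h, dimH_empty]

end Pool.Agent.U523.SF
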