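import Pool.Agent.U523.SF.Gen

/-!
The local form of the data, and block triangular operators.
-/

set_option autoImplicit false

open MeasureTheory Set Metric Filter Topology
open scoped ENNReal

namespace Pool.Agent.U523.SF
open Pool.Agent.Y271.CO

section

variable {X : Type} [NormedAddCommGroup X] [NormedSpace ℂ X]

/-- the alternatives for the points of `U` off the null set `Γ` -/
structure DataU (A : X →L[ℂ] X) (U Γ : Set ℂ) (H : ℂ → ℝ≥0∞) : Prop where
  null : volume Γ = 0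
  fin : ∫⁻ z in U, H z ≠ ⊤
  alt : ∀ z ∈ U, z ∉ Γ →
    (∃ (J : X →L[ℂ] X) (x : X), (∀ w, A (J w) - z • J w = w) ∧ x ≠ 0 ∧ A x - z • x = 0) ∨
    (∃ (J : X →L[ℂ] X) (y : X →L[ℂ] ℂ), (∀ w, J (A w - z • w) = w) ∧ y ≠ 0 ∧
      ∀ w, y (A w - z • w) = 0) ∨
    (∃ J : X →L[ℂ] X, (∀ w, A (J w) - z • J w = w) ∧ (∀ w, J (A w - z • w) = w) ∧
      ENNReal.ofReal (Real.posLog ‖J‖) ≤ H z)

theorem inv_two {Z : Type} [NormedAddCommGroup Z] [NormedSpace ℂ Z] (T G : Z →L[ℂ] Z) (z : ℂ)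
    (h1 : ∀ x, T (G x) - z • G x = x) (h2 : ∀ x, G (T x - z • x) = x) :
    z ∈ resolventSet ℂ T ∧ resolvent T z = -G := by
  obtain ⟨u, hu⟩ : ∃ u : (Z →L[ℂ] Z)ˣ, u = ⟨algebraMap ℂ (Z →L[ℂ] Z) z - T, -G, by
      ext x
      rw [Algebra.algebraMap_eq_smul_one]
      change z • (-(G x)) - T (-(G x)) = x
      rw [smul_neg, map_neg, sub_neg_eq_add, neg_add_eq_sub]
      exact h1 x, by
      ext x
      rw [Algebra.algebraMap_eq_smul_one]
      change -(G (z • x - T x)) = x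
      rw [← map_neg, neg_sub]
      exact h2 x⟩ := ⟨_, rfl⟩
  have hu1 : (u : Z →L[ℂ] Z) = algebraMap ℂ (Z →L[ℂ] Z) z - T := by rw [hu]
  have hu2 : ((u⁻¹ : (Z →L[ℂ] Z)ˣ) : Z →L[ℂ] Z) = -G := by rw [hu]; rfl
  refine ⟨⟨u, hu1⟩, ?_⟩
  rw [resolvent, ← hu1, Ring.inverse_unit, hu2]

theorem exists_two {Z : Type} [NormedAddCommGroup Z] [NormedSpace ℂ Z] (T : Z →L[ℂ] Z) (z : ℂ)
    (hz : z ∈ resolventSet ℂ T) :
    (∀ x, T (-resolvent T z x) - z • (-resolvent T z x) = x) ∧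
      (∀ x, -resolvent T z (T x - z • x) = x) := by
  have hu : IsUnit (algebraMap ℂ (Z →L[ℂ] Z) z - T) := hz
  have h1 := Ring.mul_inverse_cancel _ hu
  have h2 := Ring.inverse_mul_cancel _ hu
  constructor
  · intro x
    have h3 := congrArg (fun S : Z →L[ℂ] Z => S x) h1
    simp only [mul_apply_eq_comp, sub_apply, Algebra.algebraMap_eq_smul_one, smul_apply,
      one_apply_eq_self] at h3
    rw [resolvent, Algebra.algebraMap_eq_smul_one]
    rw [map_neg, smul_neg, sub_neg_eq_add, neg_add_eq_sub]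
    exact h3
  · intro x
    have h3 := congrArg (fun S : Z →L[ℂ] Z => S x) h2
    simp only [mul_apply_eq_comp, sub_apply, Algebra.algebraMap_eq_smul_one, smul_apply,
      one_apply_eq_self] at h3
    rw [resolvent, Algebra.algebraMap_eq_smul_one, ← map_neg, neg_sub]
    exact h3

theorem Data.toU {A : X →L[ℂ] X} {Γ : Set ℂ} {R : ℝ} {H : ℂ → ℝ≥0∞} (D : Data A Γ R H)
    {U : Set ℂ} (hU : U ⊆ ball 0 R) : DataU A U Γ H := by
  refine ⟨D.null, ne_top_of_le_ne_top D.fin (lintegral_mono_set hU), fun z hz hzΓ => ?_⟩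
  rcases D.alt z (mem_ball_zero_iff.1 (hU hz)).le hzΓ with
    ⟨J, x, h1, h2, h3⟩ | ⟨J, y, h1, h2, h3⟩ | ⟨h1, h2⟩
  · exact Or.inl ⟨J, x, fun w => congrArg (fun S : X →L[ℂ] X => S w) h1, h2, h3⟩
  · exact Or.inr (Or.inl ⟨J, y, fun w => congrArg (fun S : X →L[ℂ] X => S w) h1, h2,
      fun w => congrArg (fun S : X →L[ℂ] ℂ => S w) h3⟩)
  · obtain ⟨h3, h4⟩ := exists_two A z h1
    exact Or.inr (Or.inr ⟨-resolvent A z, h3, h4, by rwa [norm_neg]⟩)

end

section

variable {X : Type} [NormedAddCommGroup X] [NormedSpace ℂ X] [CompleteSpace X]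
variable {A : X →L[ℂ] X} {U Γ : Set ℂ} {H : ℂ → ℝ≥0∞}

/-- a point of the spectrum in `U` off the null set: all approximable perturbations -/
theorem gen_indexU (D : DataU A U Γ H) {z : ℂ}
    (hz : z ∈ spectrum ℂ A) (hzU : z ∈ U) (hzΓ : z ∉ Γ) (K : X →L[ℂ] X) (hK : Approximable K) :
    (∃ c : ℂ, A + K = c • (1 : X →L[ℂ] X)) ∨ HasHyper (A + K) := by
  rcases D.alt z hzU hzΓ with ⟨J, x, h1, h2, h3⟩ | ⟨J, y, h1, h2, h3⟩ | ⟨J, h1, h2, -⟩
  · obtain ⟨x', hx', h4⟩ := eig_stable (A - z • (1 : X →L[ℂ] X)) J K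
      (by ext w; exact h1 w) h2 h3 hK
    refine hyper_of_eig (A + K) (z := z) hx' ?_
    have h5 : (A - z • (1 : X →L[ℂ] X) + K) x' = (A + K) x' - z • x' := by
      simp only [add_apply, sub_apply, smul_apply, one_apply_eq_self]
      abel
    rw [h5] at h4
    exact sub_eq_zero.1 h4
  · obtain ⟨y', hy', h4⟩ := coeig_stable (A - z • (1 : X →L[ℂ] X)) J K
      (by ext w; exact h1 w) h2 (by ext w; exact h3 w) hK
    refine hyper_of_coeig (A + K) (z := z) hy' ?_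
    have h5 : y'.comp (A - z • (1 : X →L[ℂ] X) + K) = y'.comp (A + K) - z • y' := by
      ext v
      simp only [ContinuousLinearMap.comp_apply, add_apply, sub_apply, smul_apply,
        one_apply_eq_self, map_add, map_sub, map_smul]
      ring
    rw [h5] at h4
    exact sub_eq_zero.1 h4
  · exact absurd (inv_two A J z h1 h2).1 hz

/-- no such point: the logarithm of the resolvent is integrable -/
theorem gen_intU (D : DataU A U Γ H) (hU : MeasurableSet U)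
    (hno : ∀ z ∈ U, z ∉ Γ → z ∉ spectrum ℂ A) :
    volume (spectrum ℂ A ∩ U) = 0 ∧
      IntegrableOn (fun z : ℂ => Real.posLog ‖resolvent A z‖) U := by
  have hsr : spectrum ℂ A ∩ U ⊆ Γ := by
    rintro z ⟨hz, hzR⟩
    by_contra hc
    exact hno z hzR hc hz
  refine ⟨measure_mono_null hsr D.null, ?_⟩
  have key : ∀ z ∈ U, z ∉ Γ →
      ENNReal.ofReal (Real.posLog ‖resolvent A z‖) ≤ H z := by
    intro z hzR hzΓ
    have hres : z ∈ resolventSet ℂ A := by
      by_contra hc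
      exact hno z hzR hzΓ hc
    obtain ⟨v1, v2⟩ := exists_two A z hres
    rcases D.alt z hzR hzΓ with ⟨J, x, h1, h2, h3⟩ | ⟨J, y, h1, h2, h3⟩ | ⟨J, h1, h2, h3⟩
    · exfalso
      apply h2
      have h4 := v2 x
      rw [h3, map_zero, neg_zero] at h4
      exact h4.symm
    · exfalso
      apply h2
      ext w
      have h4 := h3 (-resolvent A z w)
      rw [v1] at h4
      exact h4
    · rw [(inv_two A J z h1 h2).2, norm_neg]
      exact h3
  have hmeas : StronglyMeasurable fun z : ℂ => resolvent A z :=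
    Pool.Agent.W610.HY.Fin.hMEAS (X →L[ℂ] X) A
  refine ⟨(Real.continuous_posLog.comp_stronglyMeasurable hmeas.norm).aestronglyMeasurable, ?_⟩
  rw [hasFiniteIntegral_iff_ofReal (ae_of_all _ fun z => Real.posLog_nonneg)]
  have h1 : ∀ᵐ z ∂((volume : Measure ℂ).restrict U),
      ENNReal.ofReal (Real.posLog ‖resolvent A z‖) ≤ H z := by
    have h2 : ∀ᵐ z ∂((volume : Measure ℂ).restrict U), z ∉ Γ := by
      rw [ae_iff]
      simp only [not_not]
      exact le_antisymm ((Measure.restrict_apply_le _ _).trans D.null.le) bot_le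
    filter_upwards [h2, ae_restrict_mem hU] with z hz1 hz2
    exact key z hz2 hz1
  exact (lintegral_mono_ae h1).trans_lt (lt_top_iff_ne_top.2 D.fin)

/-- perturbations of finite rank -/
theorem gen_finiteU (D : DataU A U Γ H) (hU : IsOpen U)
    (hW : volume (spectrum ℂ A ∩ U) = 0 →
      (weyl A ∩ U).Nonempty ∧ (weyl A).Nontrivial) (K : X →L[ℂ] X)
    (hK : FiniteDimensional ℂ (LinearMap.range (K : X →ₗ[ℂ] X))) :
    dimH {κ : ℂ | ¬ ((∃ c : ℂ, A + κ • K = c • (1 : X →L[ℂ] X)) ∨ HasHyper (A + κ • K))} = 0 := by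
  by_cases hno : ∀ z ∈ U, z ∉ Γ → z ∉ spectrum ℂ A
  · obtain ⟨h0, hI⟩ := gen_intU D hU.measurableSet hno
    obtain ⟨h1, h2⟩ := hW h0
    refine le_antisymm ((dimH_mono fun κ hκ => ?_).trans
      (main_weyl A K hK hU h0 hI h1 h2).le) zero_le
    exact fun h => hκ (Or.inr h)
  · push Not at hno
    obtain ⟨z, hz1, hz2, hz3⟩ := hno
    have h : {κ : ℂ | ¬ ((∃ c : ℂ, A + κ • K = c • (1 : X →L[ℂ] X)) ∨ HasHyper (A + κ • K))} =
        ∅ := by
      ext κ
      simp only [mem_ofPred_eq, mem_empty_iff_false, iff_false, not_not]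
      refine gen_indexU D hz3 hz1 hz2 (κ • K) (approx_of_finite _ ?_)
      have h1 : LinearMap.range ((κ • K : X →L[ℂ] X) : X →ₗ[ℂ] X) ≤
          LinearMap.range (K : X →ₗ[ℂ] X) := by
        rintro _ ⟨v, rfl⟩
        refine ⟨κ • v, ?_⟩
        simp
      exact Submodule.finiteDimensional_of_le h1
    rw [h, dimH_empty]

end

/-! ### Block triangular operators -/

section

variable {X : Type} [NormedAddCommGroup X] [NormedSpace ℂ X]
variable {Z : Type} [NormedAddCommGroup Z] [NormedSpace ℂ Z]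

/-- the operator matrix `(A B; 0 R)` -/
def up (A : X →L[ℂ] X) (B : Z →L[ℂ] X) (R : Z →L[ℂ] Z) : X × Z →L[ℂ] X × Z :=
  (A.comp (ContinuousLinearMap.fst ℂ X Z) + B.comp (ContinuousLinearMap.snd ℂ X Z)).prod
    (R.comp (ContinuousLinearMap.snd ℂ X Z))

theorem up_apply (A : X →L[ℂ] X) (B : Z →L[ℂ] X) (R : Z →L[ℂ] Z) (x : X) (w : Z) :
    up A B R (x, w) = (A x + B w, R w) := rfl

theorem norm_up_le (A : X →L[ℂ] X) (B : Z →L[ℂ] X) (R : Z →L[ℂ] Z) :
    ‖up A B R‖ ≤ ‖A‖ + ‖B‖ + ‖R‖ := by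
  refine ContinuousLinearMap.opNorm_le_bound _ (by positivity) ?_
  rintro ⟨x, w⟩
  rw [up_apply, Prod.norm_def, Prod.norm_def]
  obtain ⟨m, hm⟩ : ∃ m, m = max ‖x‖ ‖w‖ := ⟨_, rfl⟩
  have h1 : ‖x‖ ≤ m := hm ▸ le_max_left _ _
  have h2 : ‖w‖ ≤ m := hm ▸ le_max_right _ _
  have h3 : 0 ≤ m := (norm_nonneg x).trans h1
  change max ‖A x + B w‖ ‖R w‖ ≤ (‖A‖ + ‖B‖ + ‖R‖) * max ‖x‖ ‖w‖
  rw [← hm]
  refine max_le ?_ ?_
  · calc ‖A x + B w‖ ≤ ‖A x‖ + ‖B w‖ := norm_add_le _ _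
      _ ≤ ‖A‖ * m + ‖B‖ * m := add_le_add ((A.le_opNorm x).trans (by gcongr))
          ((B.le_opNorm w).trans (by gcongr))
      _ ≤ (‖A‖ + ‖B‖ + ‖R‖) * m := by nlinarith [norm_nonneg R]
  · calc ‖R w‖ ≤ ‖R‖ * m := (R.le_opNorm w).trans (by gcongr)
      _ ≤ (‖A‖ + ‖B‖ + ‖R‖) * m := by nlinarith [norm_nonneg A, norm_nonneg B]

/-- right inverses of triangular operators -/
theorem up_right {A : X →L[ℂ] X} (B : Z →L[ℂ] X) {R : Z →L[ℂ] Z} {J : X →L[ℂ] X} {G : Z →L[ℂ] Z}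
    {z : ℂ} (hJ : ∀ w, A (J w) - z • J w = w) (hG : ∀ w, R (G w) - z • G w = w) (v : X × Z) :
    up A B R (up J (-(J.comp (B.comp G))) G v) - z • up J (-(J.comp (B.comp G))) G v = v := by
  obtain ⟨x, w⟩ := v
  rw [up_apply, up_apply]
  refine Prod.ext ?_ ?_
  · change A (J x + -(J (B (G w)))) + B (G w) - z • (J x + -(J (B (G w)))) = x
    have h1 := hJ (B (G w))
    have h2 := hJ x
    rw [map_add, map_neg, smul_add, smul_neg]
    calc A (J x) + -A (J (B (G w))) + B (G w) - (z • J x + -(z • J (B (G w))))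
        = (A (J x) - z • J x) - (A (J (B (G w))) - z • J (B (G w))) + B (G w) := by abel
      _ = x := by rw [h1, h2]; abel
  · exact hG w

/-- left inverses of triangular operators -/
theorem up_left {A : X →L[ℂ] X} (B : Z →L[ℂ] X) {R : Z →L[ℂ] Z} {J : X →L[ℂ] X} {G : Z →L[ℂ] Z}
    {z : ℂ} (hJ : ∀ w, J (A w - z • w) = w) (hG : ∀ w, G (R w - z • w) = w) (v : X × Z) :
    up J (-(J.comp (B.comp G))) G (up A B R v - z • v) = v := by
  obtain ⟨x, w⟩ := v
  rw [up_apply]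
  change up J (-(J.comp (B.comp G))) G (A x + B w - z • x, R w - z • w) = (x, w)
  rw [up_apply]
  refine Prod.ext ?_ ?_
  · change J (A x + B w - z • x) + -(J (B (G (R w - z • w)))) = x
    rw [hG]
    have h1 : A x + B w - z • x = (A x - z • x) + B w := by abel
    rw [h1, map_add, hJ]
    abel
  · exact hG w

/-- a bound for the logarithm of the norm of the inverse -/
theorem up_log {B : Z →L[ℂ] X} {J : X →L[ℂ] X} {G : Z →L[ℂ] Z} {c : ℝ}
    (hc : ‖G‖ ≤ c) : Real.posLog ‖up J (-(J.comp (B.comp G))) G‖ ≤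
      Real.posLog 2 + (Real.posLog (1 + ‖B‖ * c) + Real.posLog c) + Real.posLog ‖J‖ := by
  have hc0 : 0 ≤ c := (norm_nonneg G).trans hc
  have h1 : ‖up J (-(J.comp (B.comp G))) G‖ ≤ (1 + ‖B‖ * c) * ‖J‖ + c := by
    refine (norm_up_le _ _ _).trans ?_
    rw [norm_neg]
    have h2 : ‖J.comp (B.comp G)‖ ≤ ‖J‖ * (‖B‖ * c) := by
      refine (ContinuousLinearMap.opNorm_comp_le _ _).trans ?_
      gcongr
      refine (ContinuousLinearMap.opNorm_comp_le _ _).trans ?_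
      gcongr
    nlinarith
  refine (Real.posLog_le_posLog (norm_nonneg _) h1).trans ?_
  refine Real.posLog_add.trans ?_
  have h3 : Real.posLog ((1 + ‖B‖ * c) * ‖J‖) ≤ Real.posLog (1 + ‖B‖ * c) + Real.posLog ‖J‖ :=
    Real.posLog_mul
  have h4 : Real.posLog 2 = Real.log 2 := by
    rw [Real.posLog, max_eq_right (Real.log_nonneg (by norm_num))]
  rw [h4]
  linarith

theorem up_log' {B : X →L[ℂ] Z} {J : X →L[ℂ] X} {G : Z →L[ℂ] Z} {c : ℝ}
    (hc : ‖G‖ ≤ c) : Real.posLog ‖up G (-(G.comp (B.comp J))) J‖ ≤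
      Real.posLog 2 + (Real.posLog (1 + ‖B‖ * c) + Real.posLog c) + Real.posLog ‖J‖ := by
  have hc0 : 0 ≤ c := (norm_nonneg G).trans hc
  have h1 : ‖up G (-(G.comp (B.comp J))) J‖ ≤ (1 + ‖B‖ * c) * ‖J‖ + c := by
    refine (norm_up_le _ _ _).trans ?_
    rw [norm_neg]
    have h2 : ‖G.comp (B.comp J)‖ ≤ c * (‖B‖ * ‖J‖) := by
      refine (ContinuousLinearMap.opNorm_comp_le _ _).trans ?_
      gcongr
      exact ContinuousLinearMap.opNorm_comp_le _ _
    nlinarith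
  refine (Real.posLog_le_posLog (norm_nonneg _) h1).trans ?_
  refine Real.posLog_add.trans ?_
  have h3 : Real.posLog ((1 + ‖B‖ * c) * ‖J‖) ≤ Real.posLog (1 + ‖B‖ * c) + Real.posLog ‖J‖ :=
    Real.posLog_mul
  have h4 : Real.posLog 2 = Real.log 2 := by
    rw [Real.posLog, max_eq_right (Real.log_nonneg (by norm_num))]
  rw [h4]
  linarith

/-- `R - z` has bounded inverses for `z ∈ U` -/
def Off (R : Z →L[ℂ] Z) (U : Set ℂ) : Prop :=
  ∃ c : ℝ, ∀ z ∈ U, ∃ G : Z →L[ℂ] Z, (∀ w, R (G w) - z • G w = w) ∧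
    (∀ w, G (R w - z • w) = w) ∧ ‖G‖ ≤ c

theorem fin_add {U : Set ℂ} (hU : volume U ≠ ⊤) {H : ℂ → ℝ≥0∞} (hH : ∫⁻ z in U, H z ≠ ⊤)
    (k : ℝ≥0∞) (hk : k ≠ ⊤) : ∫⁻ z in U, (k + H z) ≠ ⊤ := by
  rw [lintegral_add_left measurable_const, lintegral_const, Measure.restrict_apply_univ]
  exact ENNReal.add_ne_top.2 ⟨ENNReal.mul_ne_top hk hU, hH⟩

theorem up_data1 {A : X →L[ℂ] X} {U Γ : Set ℂ} {H : ℂ → ℝ≥0∞} (D : DataU A U Γ H)
    (hU : volume U ≠ ⊤) (B : Z →L[ℂ] X) {R : Z →L[ℂ] Z} (hR : Off R U) :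
    ∃ H', DataU (up A B R) U Γ H' := by
  obtain ⟨c, hc⟩ := hR
  obtain ⟨k, hk⟩ : ∃ k : ℝ, k = Real.posLog 2 + (Real.posLog (1 + ‖B‖ * c) + Real.posLog c) :=
    ⟨_, rfl⟩
  have hk0 : 0 ≤ k := by
    rw [hk]
    have := Real.posLog_nonneg (x := 2)
    have := Real.posLog_nonneg (x := 1 + ‖B‖ * c)
    have := Real.posLog_nonneg (x := c)
    positivity
  refine ⟨fun z => ENNReal.ofReal k + H z, D.null,
    fin_add hU D.fin _ ENNReal.ofReal_ne_top, fun z hz hzΓ => ?_⟩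
  obtain ⟨G, hG1, hG2, hG3⟩ := hc z hz
  rcases D.alt z hz hzΓ with ⟨J, x, h1, h2, h3⟩ | ⟨J, y, h1, h2, h3⟩ | ⟨J, h1, h2, h3⟩
  · refine Or.inl ⟨up J (-(J.comp (B.comp G))) G, (x, 0), up_right B h1 hG1, ?_, ?_⟩
    · intro h
      exact h2 (congrArg Prod.fst h)
    · rw [up_apply]
      refine Prod.ext ?_ ?_
      · change A x + B 0 - z • x = 0
        rw [map_zero, add_zero, h3]
      · change R 0 - z • (0 : Z) = 0
        rw [map_zero, smul_zero, sub_zero]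
  · refine Or.inr (Or.inl ⟨up J (-(J.comp (B.comp G))) G,
      y.comp (ContinuousLinearMap.fst ℂ X Z) -
        (y.comp (B.comp G)).comp (ContinuousLinearMap.snd ℂ X Z), up_left B h1 hG2, ?_, ?_⟩)
    · intro h
      apply h2
      ext x
      have h4 := congrArg (fun S : X × Z →L[ℂ] ℂ => S (x, 0)) h
      change y x - y (B (G 0)) = 0 at h4
      rwa [map_zero, map_zero, map_zero, sub_zero] at h4
    · rintro ⟨x, w⟩
      rw [up_apply]
      change y (A x + B w - z • x) - y (B (G (R w - z • w))) = 0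
      have h4 : A x + B w - z • x = (A x - z • x) + B w := by abel
      rw [hG2, h4, map_add, h3, zero_add, sub_self]
  · refine Or.inr (Or.inr ⟨up J (-(J.comp (B.comp G))) G, up_right B h1 hG1,
      up_left B h2 hG2, ?_⟩)
    refine (ENNReal.ofReal_le_ofReal (up_log hG3)).trans ?_
    rw [← hk, ENNReal.ofReal_add hk0 Real.posLog_nonneg]
    exact add_le_add le_rfl h3

theorem up_data2 {A : X →L[ℂ] X} {U Γ : Set ℂ} {H : ℂ → ℝ≥0∞} (D : DataU A U Γ H)
    (hU : volume U ≠ ⊤) (B : X →L[ℂ] Z) {R : Z →L[ℂ] Z} (hR : Off R U) :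
    ∃ H', DataU (up R B A) U Γ H' := by
  obtain ⟨c, hc⟩ := hR
  obtain ⟨k, hk⟩ : ∃ k : ℝ, k = Real.posLog 2 + (Real.posLog (1 + ‖B‖ * c) + Real.posLog c) :=
    ⟨_, rfl⟩
  have hk0 : 0 ≤ k := by
    rw [hk]
    have := Real.posLog_nonneg (x := 2)
    have := Real.posLog_nonneg (x := 1 + ‖B‖ * c)
    have := Real.posLog_nonneg (x := c)
    positivity
  refine ⟨fun z => ENNReal.ofReal k + H z, D.null,
    fin_add hU D.fin _ ENNReal.ofReal_ne_top, fun z hz hzΓ => ?_⟩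
  obtain ⟨G, hG1, hG2, hG3⟩ := hc z hz
  rcases D.alt z hz hzΓ with ⟨J, x, h1, h2, h3⟩ | ⟨J, y, h1, h2, h3⟩ | ⟨J, h1, h2, h3⟩
  · refine Or.inl ⟨up G (-(G.comp (B.comp J))) J, (-(G (B x)), x), up_right B hG1 h1, ?_, ?_⟩
    · intro h
      exact h2 (congrArg Prod.snd h)
    · rw [up_apply]
      refine Prod.ext ?_ ?_
      · change R (-(G (B x))) + B x - z • (-(G (B x))) = 0
        have h4 := hG1 (B x)
        rw [map_neg, smul_neg, sub_neg_eq_add]
        calc -R (G (B x)) + B x + z • G (B x) = B x - (R (G (B x)) - z • G (B x)) := by abel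
          _ = 0 := by rw [h4, sub_self]
      · exact h3
  · refine Or.inr (Or.inl ⟨up G (-(G.comp (B.comp J))) J,
      y.comp (ContinuousLinearMap.snd ℂ Z X), up_left B hG2 h1, ?_, ?_⟩)
    · intro h
      apply h2
      ext x
      exact congrArg (fun S : Z × X →L[ℂ] ℂ => S (0, x)) h
    · rintro ⟨w, x⟩
      exact h3 x
  · refine Or.inr (Or.inr ⟨up G (-(G.comp (B.comp J))) J, up_right B hG1 h1,
      up_left B hG2 h2, ?_⟩)
    refine (ENNReal.ofReal_le_ofReal (up_log' hG3)).trans ?_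
    rw [← hk, ENNReal.ofReal_add hk0 Real.posLog_nonneg]
    exact add_le_add le_rfl h3

/-- the spectrum of the first entry -/
theorem up_spec1 {A : X →L[ℂ] X} (B : Z →L[ℂ] X) {R : Z →L[ℂ] Z} {U : Set ℂ} (hR : Off R U)
    {z : ℂ} (hz : z ∈ U) (hA : z ∈ spectrum ℂ A) : z ∈ spectrum ℂ (up A B R) := by
  intro hu
  apply hA
  obtain ⟨c, hc⟩ := hR
  obtain ⟨G, hG1, hG2, -⟩ := hc z hz
  obtain ⟨v1, v2⟩ := exists_two _ z hu
  obtain ⟨V, hV⟩ : ∃ V, V = -resolvent (up A B R) z := ⟨_, rfl⟩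
  have v1' : ∀ v, up A B R (V v) - z • V v = v := by rw [hV]; exact v1
  have v2' : ∀ v, V (up A B R v - z • v) = v := by rw [hV]; exact v2
  refine (inv_two A ((ContinuousLinearMap.fst ℂ X Z).comp
    (V.comp (ContinuousLinearMap.inl ℂ X Z))) z ?_ ?_).1
  · intro x
    change A (V (x, 0)).1 - z • (V (x, 0)).1 = x
    have h1 := v1' (x, 0)
    have h2 : R (V (x, 0)).2 - z • (V (x, 0)).2 = 0 := congrArg Prod.snd h1
    have h3 : (V (x, 0)).2 = 0 := by
      have := hG2 (V (x, 0)).2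
      rw [h2, map_zero] at this
      exact this.symm
    have h4 : A (V (x, 0)).1 + B (V (x, 0)).2 - z • (V (x, 0)).1 = x := congrArg Prod.fst h1
    rwa [h3, map_zero, add_zero] at h4
  · intro x
    change (V (A x - z • x, 0)).1 = x
    have h1 := v2' (x, 0)
    have h2 : up A B R (x, 0) - z • ((x, 0) : X × Z) = (A x - z • x, 0) := by
      rw [up_apply]
      refine Prod.ext ?_ ?_
      · change A x + B 0 - z • x = A x - z • x
        rw [map_zero, add_zero]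
      · change R 0 - z • (0 : Z) = 0
        rw [map_zero, smul_zero, sub_zero]
    rw [h2] at h1
    rw [h1]

/-- the spectrum of the second entry -/
theorem up_spec2 {A : X →L[ℂ] X} (B : X →L[ℂ] Z) {R : Z →L[ℂ] Z} {U : Set ℂ} (hR : Off R U)
    {z : ℂ} (hz : z ∈ U) (hA : z ∈ spectrum ℂ A) : z ∈ spectrum ℂ (up R B A) := by
  intro hu
  apply hA
  obtain ⟨c, hc⟩ := hR
  obtain ⟨G, hG1, hG2, -⟩ := hc z hz
  obtain ⟨v1, v2⟩ := exists_two _ z hu
  obtain ⟨V, hV⟩ : ∃ V, V = -resolvent (up R B A) z := ⟨_, rfl⟩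
  have v1' : ∀ v, up R B A (V v) - z • V v = v := by rw [hV]; exact v1
  have v2' : ∀ v, V (up R B A v - z • v) = v := by rw [hV]; exact v2
  refine (inv_two A ((ContinuousLinearMap.snd ℂ Z X).comp
    (V.comp (ContinuousLinearMap.inr ℂ Z X))) z ?_ ?_).1
  · intro x
    exact congrArg Prod.snd (v1' (0, x))
  · intro x
    change (V (0, A x - z • x)).2 = x
    have h2 : up R B A (-(G (B x)), x) - z • ((-(G (B x)), x) : Z × X) = (0, A x - z • x) := by
      rw [up_apply]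
      refine Prod.ext ?_ rfl
      change R (-(G (B x))) + B x - z • (-(G (B x))) = 0
      have h4 := hG1 (B x)
      rw [map_neg, smul_neg, sub_neg_eq_add]
      calc -R (G (B x)) + B x + z • G (B x) = B x - (R (G (B x)) - z • G (B x)) := by abel
        _ = 0 := by rw [h4, sub_self]
    have h1 := v2' (-(G (B x)), x)
    rw [h2] at h1
    rw [h1]

end

end Pool.Agent.U523.SF
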