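import Mathlib

/-!
Stability of eigenvalues of one-sided invertible operators under approximable perturbations.
-/

set_option autoImplicit false

namespace Pool.Agent.U523.SF

section lin
variable {V : Type} [AddCommGroup V] [Module ℂ V]

/-- a finite rank perturbation of a surjective map with a kernel has a kernel -/
theorem ker_of_surj (A F : V →ₗ[ℂ] V) (hA : Function.Surjective A) (hk : LinearMap.ker A ≠ ⊥)
    (hF : FiniteDimensional ℂ (LinearMap.range F)) : LinearMap.ker (A + F) ≠ ⊥ := by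
  intro h0
  apply hk
  have hfm : ∀ x : (LinearMap.range F).comap A, (A + F) (x : V) ∈ LinearMap.range F := fun x =>
    Submodule.add_mem _ x.2 (LinearMap.mem_range_self F _)
  have hgm : ∀ x : (LinearMap.range F).comap A, A (x : V) ∈ LinearMap.range F := fun x => x.2
  let f : (LinearMap.range F).comap A →ₗ[ℂ] LinearMap.range F :=
    LinearMap.codRestrict _ ((A + F).domRestrict _) hfm
  let g : (LinearMap.range F).comap A →ₗ[ℂ] LinearMap.range F :=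
    LinearMap.codRestrict _ (A.domRestrict _) hgm
  have hf : Function.Injective f := by
    intro x y hxy
    have h1 : (A + F) (x : V) = (A + F) (y : V) := congrArg Subtype.val hxy
    exact Subtype.ext (LinearMap.ker_eq_bot.1 h0 h1)
  have hg : Function.Surjective g := by
    rintro ⟨w, hw⟩
    obtain ⟨x, hx⟩ := hA w
    exact ⟨⟨x, by rw [Submodule.mem_comap, hx]; exact hw⟩, Subtype.ext hx⟩
  have : FiniteDimensional ℂ ((LinearMap.range F).comap A) := FiniteDimensional.of_injective f hf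
  have h1 : Module.finrank ℂ ((LinearMap.range F).comap A) = Module.finrank ℂ (LinearMap.range F) :=
    le_antisymm (LinearMap.finrank_le_finrank_of_injective hf)
      (LinearMap.finrank_le_finrank_of_surjective hg)
  have h2 : Function.Injective g := (LinearMap.injective_iff_surjective_of_finrank_eq_finrank h1).2 hg
  rw [LinearMap.ker_eq_bot']
  intro x hx
  have h3 : x ∈ (LinearMap.range F).comap A := by
    rw [Submodule.mem_comap, hx]
    exact Submodule.zero_mem _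
  have h4 : g ⟨x, h3⟩ = g 0 := by
    rw [map_zero]
    exact Subtype.ext hx
  exact congrArg Subtype.val (h2 h4)

end lin

section ban
variable {X : Type} [NormedAddCommGroup X] [NormedSpace ℂ X]

/-- norm limits of operators of finite rank -/
def Approximable (K : X →L[ℂ] X) : Prop :=
  ∀ ε > 0, ∃ F : X →L[ℂ] X, FiniteDimensional ℂ (LinearMap.range (F : X →ₗ[ℂ] X)) ∧ ‖K - F‖ < ε

/-- the kernel of a right invertible operator survives -/
theorem eig_stable [CompleteSpace X] (B J K : X →L[ℂ] X) (h1 : B * J = 1) {x : X} (hx : x ≠ 0)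
    (hBx : B x = 0) (hK : Approximable K) : ∃ x' : X, x' ≠ 0 ∧ (B + K) x' = 0 := by
  obtain ⟨F, hF, hKF⟩ := hK (1 / (‖J‖ + 1)) (by positivity)
  obtain ⟨K1, hK1⟩ : ∃ K1, K1 = K - F := ⟨_, rfl⟩
  rw [← hK1] at hKF
  have h2 : ‖-(K1 * J)‖ < 1 := by
    rw [norm_neg]
    have hJ : (0:ℝ) < ‖J‖ + 1 := by positivity
    calc ‖K1 * J‖ ≤ ‖K1‖ * ‖J‖ := norm_mul_le _ _
      _ ≤ ‖K1‖ * (‖J‖ + 1) := by gcongr; linarith
      _ < 1 / (‖J‖ + 1) * (‖J‖ + 1) := by gcongr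
      _ = 1 := by field_simp
  obtain ⟨u, hu⟩ : ∃ u : (X →L[ℂ] X)ˣ, (u : X →L[ℂ] X) = 1 + K1 * J :=
    ⟨Units.oneSub _ h2, by rw [Units.val_oneSub, sub_neg_eq_add]⟩
  have h3 : (B + K1) * J = u := by rw [add_mul, h1, hu]
  obtain ⟨v, hv⟩ : ∃ v : X →L[ℂ] X, (u : X →L[ℂ] X) * v = 1 := ⟨_, Units.mul_inv u⟩
  have h4 : (B + K1) * (J * v) = 1 := by
    rw [← mul_assoc, h3, hv]
  have h4' : ∀ w, (B + K1) (J (v w)) = w := fun w =>
    congrArg (fun S : X →L[ℂ] X => S w) h4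
  have h1' : ∀ w, B (J w) = w := fun w => congrArg (fun S : X →L[ℂ] X => S w) h1
  have hs : Function.Surjective ((B + K1 : X →L[ℂ] X) : X →ₗ[ℂ] X) := fun w => ⟨_, h4' w⟩
  have hk : LinearMap.ker ((B + K1 : X →L[ℂ] X) : X →ₗ[ℂ] X) ≠ ⊥ := by
    intro h0
    rw [LinearMap.ker_eq_bot] at h0
    have h5 : J (v ((B + K1) x)) = x := h0 (h4' _)
    have h6 : B (J (v ((B + K1) x))) = 0 := by rw [h5, hBx]
    rw [h1'] at h6
    rw [h6, map_zero] at h5
    exact hx h5.symm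
  have h7 := ker_of_surj _ (F : X →ₗ[ℂ] X) hs hk hF
  obtain ⟨x', hx', hx0⟩ := Submodule.exists_mem_ne_zero_of_ne_bot h7
  refine ⟨x', hx0, ?_⟩
  have h8 : (B + K1) x' + F x' = 0 := hx'
  have h9 : (B + K) x' = (B + K1) x' + F x' := by
    rw [hK1]
    simp only [ContinuousLinearMap.add_apply, ContinuousLinearMap.sub_apply]
    abel
  rw [h9, h8]

/-- the transpose -/
noncomputable def tr {Y : Type} [NormedAddCommGroup Y] [NormedSpace ℂ Y] (T : X →L[ℂ] Y) :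
    (Y →L[ℂ] ℂ) →L[ℂ] (X →L[ℂ] ℂ) :=
  (ContinuousLinearMap.compL ℂ X Y ℂ).flip T

theorem tr_apply {Y : Type} [NormedAddCommGroup Y] [NormedSpace ℂ Y] (T : X →L[ℂ] Y)
    (f : Y →L[ℂ] ℂ) : tr T f = f.comp T := rfl

theorem norm_tr_le (T : X →L[ℂ] X) : ‖tr T‖ ≤ ‖T‖ := by
  refine ContinuousLinearMap.opNorm_le_bound _ (norm_nonneg _) fun f => ?_
  rw [tr_apply, mul_comm]
  exact ContinuousLinearMap.opNorm_comp_le _ _

theorem exists_FJ (K : X →L[ℂ] X) (hK : FiniteDimensional ℂ (LinearMap.range (K : X →ₗ[ℂ] X))) :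
    ∃ (n : ℕ) (F : X →L[ℂ] (Fin n → ℂ)) (J : (Fin n → ℂ) →L[ℂ] X), K = J.comp F := by
  let R := LinearMap.range (K : X →ₗ[ℂ] X)
  let b := Module.finBasis ℂ R
  let e : R ≃L[ℂ] (Fin (Module.finrank ℂ R) → ℂ) := b.equivFun.toContinuousLinearEquiv
  let K' : X →L[ℂ] R := K.codRestrict R fun x => LinearMap.mem_range_self _ x
  refine ⟨Module.finrank ℂ R, (e : R →L[ℂ] _).comp K', R.subtypeL.comp (e.symm : _ →L[ℂ] R), ?_⟩
  ext x
  simp [K']

theorem finite_tr (F : X →L[ℂ] X) (hF : FiniteDimensional ℂ (LinearMap.range (F : X →ₗ[ℂ] X))) :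
    FiniteDimensional ℂ (LinearMap.range ((tr F : (X →L[ℂ] ℂ) →L[ℂ] (X →L[ℂ] ℂ)) :
      (X →L[ℂ] ℂ) →ₗ[ℂ] (X →L[ℂ] ℂ))) := by
  obtain ⟨n, F0, J, hFJ⟩ := exists_FJ F hF
  have h : ((tr F : (X →L[ℂ] ℂ) →L[ℂ] (X →L[ℂ] ℂ)) : (X →L[ℂ] ℂ) →ₗ[ℂ] (X →L[ℂ] ℂ)) =
      ((tr F0 : ((Fin n → ℂ) →L[ℂ] ℂ) →L[ℂ] (X →L[ℂ] ℂ)) :
        ((Fin n → ℂ) →L[ℂ] ℂ) →ₗ[ℂ] (X →L[ℂ] ℂ)).comp
      ((tr J : (X →L[ℂ] ℂ) →L[ℂ] ((Fin n → ℂ) →L[ℂ] ℂ)) :
        (X →L[ℂ] ℂ) →ₗ[ℂ] ((Fin n → ℂ) →L[ℂ] ℂ)) := by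
    ext f x
    rw [hFJ]
    rfl
  rw [h]
  exact Submodule.finiteDimensional_of_le (LinearMap.range_comp_le_range _ _)

theorem approx_tr (K : X →L[ℂ] X) (hK : Approximable K) : Approximable (tr K) := by
  intro ε hε
  obtain ⟨F, hF, hKF⟩ := hK ε hε
  refine ⟨tr F, finite_tr F hF, ?_⟩
  have h : tr K - tr F = tr (K - F) := by
    ext f x
    simp [tr_apply]
  rw [h]
  exact (norm_tr_le _).trans_lt hKF

/-- the cokernel of a left invertible operator survives -/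
theorem coeig_stable (B L K : X →L[ℂ] X) (h1 : L * B = 1) {y : X →L[ℂ] ℂ}
    (hy : y ≠ 0) (hyB : y.comp B = 0) (hK : Approximable K) :
    ∃ y' : X →L[ℂ] ℂ, y' ≠ 0 ∧ y'.comp (B + K) = 0 := by
  have h2 : (tr B : (X →L[ℂ] ℂ) →L[ℂ] (X →L[ℂ] ℂ)) * tr L = 1 := by
    ext f x
    change f (L (B x)) = f x
    have h3 : L (B x) = x := congrArg (fun S : X →L[ℂ] X => S x) h1
    rw [h3]
  obtain ⟨y', hy', h⟩ := eig_stable (tr B) (tr L) (tr K) h2 hy (by rw [tr_apply, hyB])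
    (approx_tr K hK)
  refine ⟨y', hy', ?_⟩
  have h4 : (tr B + tr K) y' = y'.comp (B + K) := by
    ext x
    simp [tr_apply]
  rw [← h4, h]

theorem approx_of_finite (K : X →L[ℂ] X)
    (hK : FiniteDimensional ℂ (LinearMap.range (K : X →ₗ[ℂ] X))) : Approximable K :=
  fun ε hε => ⟨K, hK, by rwa [sub_self, norm_zero]⟩

end ban

end Pool.Agent.U523.SF
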