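import Pool.Agent.U523.SF.Toe

/-!
Toeplitz operators: the theorem on perturbations.
-/

set_option autoImplicit false

noncomputable section

open MeasureTheory AddCircle Set Filter Topology Metric
open scoped ENNReal NNReal

namespace Pool.Agent.U523.SF
open Pool.Agent.Y271.CO Pool.Agent.Y283.TO Pool.Agent.R276.SI

variable {X : Type} [NormedAddCommGroup X] [NormedSpace ℂ X] [CompleteSpace X]
variable {Y : Type} [NormedAddCommGroup Y] [NormedSpace ℂ Y] [CompleteSpace Y]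
variable {e : ℤ → X} {ε₀ : X →L[ℂ] ℂ} {M : CT → (X →L[ℂ] X)} {P : X →L[ℂ] X}
variable {j : Y →L[ℂ] X} {p : X →L[ℂ] Y}

/-- the constant function -/
def cst (β : ℂ) : CT := β • 1

theorem cst_apply (β : ℂ) (t : UnitAddCircle) : cst β t = β := by
  simp [cst]

omit [CompleteSpace X] [CompleteSpace Y] in
theorem tri_of (h : SIO e ε₀ M P) (hpj : ∀ y, p (j y) = y) (hjp : ∀ x, j (p x) = P x) (a : CT)
    (β : ℂ) : Tri j p (M a * P + M (cst β) * (1 - P)) (M a) P β := by
  refine ⟨hpj, hjp, fun x => ?_⟩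
  rw [cst, h.smul, h.one]
  rfl

theorem hd_cst (β : ℂ) (L q : ℝ) (hL : 0 < L) (hq : 0 < q) : HD (rl (cst β)) L q := by
  intro n s t _
  rw [rl, rl, cst_apply, cst_apply, sub_self, norm_zero]
  positivity

theorem toep_data (h : SIO e ε₀ M P) (hpj : ∀ y, p (j y) = y) (hjp : ∀ x, j (p x) = P x)
    (a : CT) (L q : ℝ) (hL : 0 < L) (hq : 1 / 2 ≤ q) (hq2 : 2 * q ^ 2 < 1)
    (ha : HD (rl a) L q) (R : ℝ) (hR : 0 ≤ R) :
    ∃ H : ℂ → ℝ≥0∞, Data (toep j p (M a)) (range a) R H := by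
  have hq0 : 0 < q := by linarith
  obtain ⟨β, hβ⟩ : ∃ β : ℂ, β = ((R + 1 : ℝ) : ℂ) := ⟨_, rfl⟩
  have hβn : ‖β‖ = R + 1 := by
    rw [hβ, Complex.norm_real, Real.norm_of_nonneg (by linarith)]
  obtain ⟨C, D, hD⟩ := sio_data h a (cst β) L q hL hq hq2 ha (hd_cst β L q hL hq0) R
  have hT := tri_of h hpj hjp a β
  refine ⟨fun z => ENNReal.ofReal (Real.posLog (‖p‖ * ‖j‖)) + Hfun a (cst β) L q C D z,
    volume_range a L q hL hq0 hq2 ha, ?_, ?_⟩
  · rw [lintegral_add_left measurable_const, lintegral_const, Measure.restrict_apply_univ]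
    exact ENNReal.add_ne_top.2 ⟨ENNReal.mul_ne_top ENNReal.ofReal_ne_top measure_ball_lt_top.ne,
      hD.fin⟩
  · intro z hzR hz
    have hβz : β ≠ z := by
      intro hh
      rw [← hh, hβn] at hzR
      linarith
    have hz' : z ∉ range a ∪ range (cst β) := by
      rw [mem_union, not_or]
      refine ⟨hz, ?_⟩
      rintro ⟨t, ht⟩
      rw [cst_apply] at ht
      exact hβz ht
    rcases hD.alt z hzR hz' with ⟨J, x, h1, h2, h3⟩ | ⟨J, y, h1, h2, h3⟩ | ⟨h1, h2⟩
    · left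
      have h1' : ∀ w, (M a * P + M (cst β) * (1 - P)) (J w) - z • J w = w := fun w =>
        congrArg (fun S : X →L[ℂ] X => S w) h1
      obtain ⟨g1, g2⟩ := tri_eig hT hβz h2 h3
      refine ⟨p.comp (J.comp j), p x, ?_, g1, g2⟩
      ext y
      exact tri_right hT h1' y
    · right; left
      have h1' : ∀ w, J ((M a * P + M (cst β) * (1 - P)) w - z • w) = w := fun w =>
        congrArg (fun S : X →L[ℂ] X => S w) h1
      obtain ⟨g1, g2⟩ := tri_coeig hT hβz h2 (fun x => congrArg (fun S : X →L[ℂ] ℂ => S x) h3)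
      refine ⟨p.comp (J.comp j), y.comp j, ?_, g1, ?_⟩
      · ext y
        exact tri_left hT hβz h1' y
      · ext w
        exact g2 w
    · right; right
      obtain ⟨g1, g2⟩ := tri_inv hT hβz h1
      refine ⟨g1, ?_⟩
      have g3 : Real.posLog ‖resolvent (toep j p (M a)) z‖ ≤ Real.posLog (‖p‖ * ‖j‖) +
          Real.posLog ‖resolvent (M a * P + M (cst β) * (1 - P) : X →L[ℂ] X) z‖ :=
        (Real.posLog_le_posLog (norm_nonneg _) g2).trans Real.posLog_mul
      refine (ENNReal.ofReal_le_ofReal g3).trans ?_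
      rw [ENNReal.ofReal_add Real.posLog_nonneg Real.posLog_nonneg]
      exact add_le_add le_rfl h2

omit [CompleteSpace Y] in
theorem toep_spec (h : SIO e ε₀ M P) (hpj : ∀ y, p (j y) = y) (hjp : ∀ x, j (p x) = P x)
    (a : CT) (t : UnitAddCircle) : a t ∈ spectrum ℂ (toep j p (M a)) := by
  intro hz
  obtain ⟨β, hβ⟩ : ∃ β : ℂ, β = a t + 1 := ⟨_, rfl⟩
  refine (sio_spec h a (cst β)).1 t (tri_inv' (tri_of h hpj hjp a β) ?_ hz)
  rw [hβ]
  intro hh
  have : (1:ℂ) = 0 := by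
    have := sub_eq_zero.2 hh
    rwa [add_sub_cancel_left] at this
  exact one_ne_zero this

omit [CompleteSpace X] [CompleteSpace Y] in
theorem toep_lin (h : SIO e ε₀ M P) (hjp : ∀ x, j (p x) = P x) :
    LinearIndependent ℂ (fun n : ℕ => p (e n)) := by
  have h1 : LinearIndependent ℂ (fun n : ℕ => (j : Y →ₗ[ℂ] X) (p (e n))) := by
    have h2 : (fun n : ℕ => (j : Y →ₗ[ℂ] X) (p (e n))) = fun n : ℕ => e n := by
      funext n
      change j (p (e n)) = e n
      rw [hjp, h.proj, if_pos (by omega)]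
    rw [h2]
    exact (lin_indep h).comp (fun n : ℕ => (n : ℤ)) Nat.cast_injective
  exact LinearIndependent.of_comp (j : Y →ₗ[ℂ] X) h1

/-- **Perturbations of Toeplitz operators.** -/
theorem toep_main (h : SIO e ε₀ M P) (hpj : ∀ y, p (j y) = y) (hjp : ∀ x, j (p x) = P x)
    (a : CT) (L q : ℝ) (hL : 0 < L) (hq : 1 / 2 ≤ q) (hq2 : 2 * q ^ 2 < 1)
    (ha : HD (rl a) L q) :
    (∀ z ∈ spectrum ℂ (toep j p (M a)), z ∉ range a → ∀ K : Y →L[ℂ] Y, Approximable K →
        (∃ c : ℂ, toep j p (M a) + K = c • (1 : Y →L[ℂ] Y)) ∨ HasHyper (toep j p (M a) + K)) ∧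
    ∀ K : Y →L[ℂ] Y, FiniteDimensional ℂ (LinearMap.range (K : Y →ₗ[ℂ] Y)) →
      dimH {κ : ℂ | ¬ ((∃ c : ℂ, toep j p (M a) + κ • K = c • (1 : Y →L[ℂ] Y)) ∨
        HasHyper (toep j p (M a) + κ • K))} = 0 := by
  constructor
  · intro z hz hza K hK
    obtain ⟨H, hD⟩ := toep_data h hpj hjp a L q hL hq hq2 ha ‖z‖ (norm_nonneg z)
    exact gen_index hD hz le_rfl hza K hK
  · intro K hK
    by_cases hA : ∀ t, a t = a 0
    · have hT : toep j p (M a) = (a 0) • (1 : Y →L[ℂ] Y) := by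
        ext y
        rw [toep_apply, const_eq hA, h.smul, h.one]
        simp [hpj]
      have hE : {κ : ℂ | ¬ ((∃ c : ℂ, toep j p (M a) + κ • K =
          c • (1 : Y →L[ℂ] Y)) ∨ HasHyper (toep j p (M a) + κ • K))} = ∅ := by
        ext κ
        simp only [mem_ofPred_eq, mem_empty_iff_false, iff_false, not_not]
        rw [hT]
        exact scalar_finite (toep_lin h hjp) (a 0) κ K hK
      rw [hE, dimH_empty]
    · push Not at hA
      obtain ⟨t, ht⟩ := hA
      obtain ⟨H, hD⟩ := toep_data h hpj hjp a L q hL hq hq2 ha (‖a‖ + 1)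
        (by have := norm_nonneg a; linarith)
      exact gen_finite hD (fun h0 => weyl_of_conn _ a (by linarith) h0
        (toep_spec h hpj hjp a) ht) K hK

end Pool.Agent.U523.SF
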