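import Pool.Agent.U523.SF.Gen2
import Pool.Agent.U523.SF.ToeM

/-!
Operators with a middle entry.
-/

set_option autoImplicit false

noncomputable section

open MeasureTheory AddCircle Set Filter Topology Metric
open scoped ENNReal NNReal

namespace Pool.Agent.U523.SF
open Pool.Agent.Y271.CO Pool.Agent.Y283.TO Pool.Agent.R276.SI

section

variable {Z : Type} [NormedAddCommGroup Z] [NormedSpace ℂ Z] [CompleteSpace Z]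

theorem off_ball (R : Z →L[ℂ] Z) {c : ℂ} (hc : c ∉ spectrum ℂ R) :
    ∃ r : ℝ, 0 < r ∧ Off R (ball c r) := by
  have hc' : c ∈ resolventSet ℂ R := by
    by_contra h
    exact hc h
  have h1 : ContinuousAt (resolvent R) c := (spectrum.hasDerivAt_resolvent hc').continuousAt
  have h2 : ∀ᶠ z in 𝓝 c, ‖resolvent R z‖ < ‖resolvent R c‖ + 1 :=
    h1.norm.eventually (gt_mem_nhds (lt_add_one _))
  have h3 : ∀ᶠ z in 𝓝 c, z ∈ resolventSet ℂ R := (spectrum.isOpen_resolventSet R).mem_nhds hc'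
  obtain ⟨r, hr, h⟩ := Metric.eventually_nhds_iff_ball.1 (h2.and h3)
  refine ⟨r, hr, ‖resolvent R c‖ + 1, fun z hz => ?_⟩
  obtain ⟨g1, g2⟩ := exists_two R z (h z hz).2
  exact ⟨-resolvent R z, g1, g2, by rw [norm_neg]; exact (h z hz).1.le⟩

end

theorem Off.mono {Z : Type} [NormedAddCommGroup Z] [NormedSpace ℂ Z] {R : Z →L[ℂ] Z}
    {U V : Set ℂ} (h : Off R V) (hUV : U ⊆ V) : Off R U := by
  obtain ⟨c, hc⟩ := h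
  exact ⟨c, fun z hz => hc z (hUV hz)⟩

section

variable {X : Type} [NormedAddCommGroup X] [NormedSpace ℂ X] [CompleteSpace X]
variable {Z₀ : Type} [NormedAddCommGroup Z₀] [NormedSpace ℂ Z₀] [CompleteSpace Z₀]
variable {Z₂ : Type} [NormedAddCommGroup Z₂] [NormedSpace ℂ Z₂] [CompleteSpace Z₂]

/-- `A` in the middle of a triangular operator matrix -/
def mid (R₀ : Z₀ →L[ℂ] Z₀) (B₁ : X × Z₂ →L[ℂ] Z₀) (A : X →L[ℂ] X) (B₂ : Z₂ →L[ℂ] X)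
    (R₂ : Z₂ →L[ℂ] Z₂) : Z₀ × (X × Z₂) →L[ℂ] Z₀ × (X × Z₂) := up R₀ B₁ (up A B₂ R₂)

theorem mid_data (R₀ : Z₀ →L[ℂ] Z₀) (B₁ : X × Z₂ →L[ℂ] Z₀) (A : X →L[ℂ] X) (B₂ : Z₂ →L[ℂ] X)
    (R₂ : Z₂ →L[ℂ] Z₂) {Γ : Set ℂ} (hD : ∀ R : ℝ, 0 ≤ R → ∃ H, Data A Γ R H) {c : ℂ}
    (h0 : c ∉ spectrum ℂ R₀) (h2 : c ∉ spectrum ℂ R₂) :
    ∃ r : ℝ, 0 < r ∧ ∃ H, DataU (mid R₀ B₁ A B₂ R₂) (ball c r) Γ H ∧
      ∀ z ∈ ball c r, z ∈ spectrum ℂ A → z ∈ spectrum ℂ (mid R₀ B₁ A B₂ R₂) := by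
  obtain ⟨r0, hr0, ho0⟩ := off_ball R₀ h0
  obtain ⟨r2, hr2, ho2⟩ := off_ball R₂ h2
  obtain ⟨r, hr⟩ : ∃ r, r = min r0 r2 := ⟨_, rfl⟩
  have hrp : 0 < r := hr ▸ lt_min hr0 hr2
  have ho0' : Off R₀ (ball c r) := ho0.mono (ball_subset_ball (hr ▸ min_le_left _ _))
  have ho2' : Off R₂ (ball c r) := ho2.mono (ball_subset_ball (hr ▸ min_le_right _ _))
  obtain ⟨H, hH⟩ := hD (‖c‖ + r) (by positivity)
  have hU : ball c r ⊆ ball 0 (‖c‖ + r) := by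
    refine ball_subset_ball' ?_
    rw [dist_zero_right, add_comm]
  obtain ⟨H1, hH1⟩ := up_data1 (hH.toU hU) measure_ball_lt_top.ne B₂ ho2'
  obtain ⟨H2, hH2⟩ := up_data2 hH1 measure_ball_lt_top.ne B₁ ho0'
  exact ⟨r, hrp, H2, hH2, fun z hz hzA => up_spec2 B₁ ho0' hz (up_spec1 B₂ ho2' hz hzA)⟩

theorem mid_index (R₀ : Z₀ →L[ℂ] Z₀) (B₁ : X × Z₂ →L[ℂ] Z₀) (A : X →L[ℂ] X) (B₂ : Z₂ →L[ℂ] X)
    (R₂ : Z₂ →L[ℂ] Z₂) {Γ : Set ℂ} (hD : ∀ R : ℝ, 0 ≤ R → ∃ H, Data A Γ R H) {c : ℂ}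
    (h0 : c ∉ spectrum ℂ R₀) (h2 : c ∉ spectrum ℂ R₂) (hA : c ∈ spectrum ℂ A) (hc : c ∉ Γ)
    (K : Z₀ × (X × Z₂) →L[ℂ] Z₀ × (X × Z₂)) (hK : Approximable K) :
    (∃ z : ℂ, mid R₀ B₁ A B₂ R₂ + K = z • (1 : Z₀ × (X × Z₂) →L[ℂ] Z₀ × (X × Z₂))) ∨
      HasHyper (mid R₀ B₁ A B₂ R₂ + K) := by
  obtain ⟨r, hr, H, hH, hs⟩ := mid_data R₀ B₁ A B₂ R₂ hD h0 h2
  exact gen_indexU hH (hs c (mem_ball_self hr) hA) (mem_ball_self hr) hc K hK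

theorem mid_finite (R₀ : Z₀ →L[ℂ] Z₀) (B₁ : X × Z₂ →L[ℂ] Z₀) (A : X →L[ℂ] X) (B₂ : Z₂ →L[ℂ] X)
    (R₂ : Z₂ →L[ℂ] Z₂) {Γ : Set ℂ} (hD : ∀ R : ℝ, 0 ≤ R → ∃ H, Data A Γ R H) (f : CT)
    (hf : ∀ t, f t ∈ spectrum ℂ A) {t s : UnitAddCircle} (hts : f s ≠ f t)
    (h0 : f t ∉ spectrum ℂ R₀) (h2 : f t ∉ spectrum ℂ R₂)
    (K : Z₀ × (X × Z₂) →L[ℂ] Z₀ × (X × Z₂))
    (hK : FiniteDimensional ℂ (LinearMap.range (K : Z₀ × (X × Z₂) →ₗ[ℂ] Z₀ × (X × Z₂)))) :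
    dimH {κ : ℂ | ¬ ((∃ z : ℂ, mid R₀ B₁ A B₂ R₂ + κ • K =
      z • (1 : Z₀ × (X × Z₂) →L[ℂ] Z₀ × (X × Z₂))) ∨
        HasHyper (mid R₀ B₁ A B₂ R₂ + κ • K))} = 0 := by
  obtain ⟨r, hr, H, hH, hs⟩ := mid_data R₀ B₁ A B₂ R₂ hD h0 h2
  refine gen_finiteU hH isOpen_ball (fun hv => ?_) K hK
  have hpre : IsPreconnected (range f) := isPreconnected_range f.continuous
  have hnt : (range f).Nontrivial := ⟨f s, ⟨s, rfl⟩, f t, ⟨t, rfl⟩, hts⟩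
  have hacc : ∀ u, f u ∈ ball (f t) r → AccPt (f u) (𝓟 (ball (f t) r ∩ range f)) := fun u hu =>
    (hpre.preperfect_of_nontrivial hnt _ ⟨u, rfl⟩).nhds_inter (isOpen_ball.mem_nhds hu)
  have hw : ∀ u, f u ∈ ball (f t) r → f u ∈ weyl (mid R₀ B₁ A B₂ R₂) := by
    intro u hu
    refine acc_weyl _ isOpen_ball hv hu (AccPt.mono (hacc u hu) ?_)
    rw [principal_mono]
    rintro _ ⟨h1, v, rfl⟩
    exact hs _ h1 (hf v)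
  have ht := hw t (mem_ball_self hr)
  have h3 : ∃ y ∈ ball (f t) r ∩ range f, y ≠ f t := by
    have h4 := accPt_iff_nhds.1 (hacc t (mem_ball_self hr)) univ univ_mem
    obtain ⟨y, hy1, hy2⟩ := h4
    exact ⟨y, hy1.2, hy2⟩
  obtain ⟨_, ⟨hy1, u, rfl⟩, hy2⟩ := h3
  exact ⟨⟨f t, ht, mem_ball_self hr⟩, ⟨f u, hw u hy1, f t, ht, hy2⟩⟩

end

end Pool.Agent.U523.SF
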