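import Pool.Agent.U523.SF.Gen
import Pool.Agent.R276.SI.Fin
import Pool.Agent.R276.SI.Alg
import Pool.Agent.R276.SI.Ess
import Pool.Agent.R276.SI.Fac

/-!
Singular integral operators `a P + b (1 - P)`: one-sided inverses off the curves.
-/

set_option autoImplicit false

noncomputable section

open MeasureTheory AddCircle Set Filter Topology Metric
open scoped ENNReal NNReal

namespace Pool.Agent.U523.SF
open Pool.Agent.Y271.CO Pool.Agent.Y283.TO Pool.Agent.R276.SI

theorem ring_right {𝒜 : Type} [Ring 𝒜] (P β F f1 g0 g1 w : 𝒜) (h1 : P * f1 * P = f1 * P)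
    (h2 : P * g0 * P = P * g0) (hfg : F * f1 = g0) (hg : β * g0 * g1 * w = 1) :
    (β * (F * P + (1 - P))) * ((f1 * P + g0 * (1 - P)) * g1 * w) = 1 := by
  have e1 : (F * P + (1 - P)) * (f1 * P + g0 * (1 - P)) = g0 := by
    calc (F * P + (1 - P)) * (f1 * P + g0 * (1 - P))
        = F * (P * f1 * P) + F * (P * g0 - P * g0 * P) + (f1 * P - P * f1 * P) +
          (g0 - g0 * P - (P * g0 - P * g0 * P)) := by noncomm_ring
      _ = g0 * P + (g0 - g0 * P) := by
          rw [h1, h2, sub_self, sub_self, mul_zero, add_zero, add_zero, sub_zero, ← mul_assoc, hfg]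
      _ = g0 := by abel
  calc (β * (F * P + (1 - P))) * ((f1 * P + g0 * (1 - P)) * g1 * w)
      = β * ((F * P + (1 - P)) * (f1 * P + g0 * (1 - P))) * g1 * w := by
        simp only [mul_assoc]
    _ = 1 := by rw [e1, hg]

theorem ring_left {𝒜 : Type} [Ring 𝒜] (P β F f1 g0 g1 w : 𝒜)
    (h1 : P * (g1 * F) * P = g1 * F * P) (h2 : P * g1 * P = P * g1) (hff : f1 * (g1 * F) = 1)
    (hgg : g0 * g1 = 1) (hw : w * β = 1) :
    ((f1 * P + g0 * (1 - P)) * g1 * w) * (β * (F * P + (1 - P))) = 1 := by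
  calc ((f1 * P + g0 * (1 - P)) * g1 * w) * (β * (F * P + (1 - P)))
      = (f1 * P + g0 * (1 - P)) * (g1 * (w * β) * (F * P + (1 - P))) := by
        simp only [mul_assoc]
    _ = f1 * (P * (g1 * F) * P) + f1 * (P * g1 - P * g1 * P) + g0 * (g1 * F * P - P * (g1 * F) * P) +
          (g0 * g1 - g0 * g1 * P - g0 * (P * g1 - P * g1 * P)) := by
        rw [hw]
        noncomm_ring
    _ = P + (1 - P) := by
        rw [h1, h2, sub_self, sub_self, mul_zero, mul_zero, add_zero, add_zero, sub_zero, hgg,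
          one_mul]
        have e : f1 * (g1 * F * P) = f1 * (g1 * F) * P := by simp only [mul_assoc]
        rw [e, hff, one_mul]
    _ = 1 := by abel

section

variable {X : Type} [NormedAddCommGroup X] [NormedSpace ℂ X]
variable {e : ℤ → X} {ε₀ : X →L[ℂ] ℂ} {M : CT → (X →L[ℂ] X)} {P : X →L[ℂ] X}

theorem four_up (h : SIO e ε₀ M P) {n : ℤ} (hn : 0 ≤ n) :
    P * M (fourier n) * P = M (fourier n) * P := by
  refine ContinuousLinearMap.ext_on h.dense ?_
  rintro _ ⟨m, rfl⟩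
  simp only [mul_apply_eq_comp]
  rw [h.proj]
  split_ifs with h1
  · rw [h.shift, h.proj, if_pos (by omega)]
  · rw [map_zero, map_zero]

theorem up_mul (h : SIO e ε₀ M P) {f g : CT} (hf : P * M f * P = M f * P)
    (hg : P * M g * P = M g * P) : P * M (f * g) * P = M (f * g) * P := by
  rw [h.mul]
  calc P * (M f * M g) * P = P * M f * (M g * P) := by simp only [mul_assoc]
    _ = P * M f * (P * M g * P) := by rw [hg]
    _ = (P * M f * P) * (M g * P) := by simp only [mul_assoc]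
    _ = M f * P * (M g * P) := by rw [hf]
    _ = M f * (P * M g * P) := by simp only [mul_assoc]
    _ = M f * (M g * P) := by rw [hg]
    _ = _ := by rw [mul_assoc]

theorem sub_factor (h : SIO e ε₀ M P) (a b : CT) (z : ℂ) (F : CT)
    (hf : a - algebraMap ℂ CT z = (b - algebraMap ℂ CT z) * F) :
    (M a * P + M b * (1 - P)) - z • (1 : X →L[ℂ] X) =
      M (b - algebraMap ℂ CT z) * (M F * P + (1 - P)) := by
  rw [← Algebra.algebraMap_eq_smul_one, ← Fin.M_sub_z h, hf, h.mul, mul_add, mul_assoc]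

theorem cexp_mul_neg (f : CT) : cexp f * cexp (-f) = 1 := Fin.cexp_neg_mul f

theorem fourier_mul_neg (k : ℤ) : (fourier k * fourier (-k) : CT) = 1 := by
  ext t
  simp only [ContinuousMap.mul_apply, ContinuousMap.one_apply]
  rw [← fourier_add, add_neg_cancel, fourier_zero]

/-- the one-sided inverse -/
def Jop (M : CT → (X →L[ℂ] X)) (P : X →L[ℂ] X) (k : ℤ) (c d : ℕ → ℂ) (w : CT) : X →L[ℂ] X :=
  (M (cexp (-ps c) * fourier (-k)) * P + M (cexp (psm d)) * (1 - P)) * M (cexp (-psm d)) * M w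

theorem J_right (h : SIO e ε₀ M P) (a b : CT) (z : ℂ) (k : ℤ) (c d : ℕ → ℂ) (w : CT)
    (hc : Summable fun n => ‖c n‖) (hd : Summable fun n => ‖d n‖) (hk : k ≤ 0)
    (hf : a - algebraMap ℂ CT z =
      (b - algebraMap ℂ CT z) * fourier k * cexp (ps c) * cexp (psm d))
    (hw : (b - algebraMap ℂ CT z) * w = 1) :
    ((M a * P + M b * (1 - P)) - z • (1 : X →L[ℂ] X)) * Jop M P k c d w = 1 := by
  obtain ⟨hPP, h2, -, -⟩ := Alg.main X e ε₀ M P h
  have k2 := (h2 (fun n => -c n) (by simpa using hc)).1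
  have k3 := (h2 d hd).2
  rw [← ps_neg c hc] at k2
  rw [sub_factor h a b z (fourier k * cexp (ps c) * cexp (psm d)) (by rw [hf]; ring), Jop]
  refine ring_right P _ _ _ _ _ _ (up_mul h k2 (four_up h (by omega))) k3 ?_ ?_
  · rw [← h.mul]
    congr 1
    calc fourier k * cexp (ps c) * cexp (psm d) * (cexp (-ps c) * fourier (-k))
        = (fourier k * fourier (-k)) * (cexp (ps c) * cexp (-ps c)) * cexp (psm d) := by ring
      _ = _ := by rw [fourier_mul_neg, cexp_mul_neg, one_mul, one_mul]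
  · rw [← h.mul, ← h.mul, ← h.mul, ← h.one]
    congr 1
    calc (b - algebraMap ℂ CT z) * cexp (psm d) * cexp (-psm d) * w
        = ((b - algebraMap ℂ CT z) * w) * (cexp (psm d) * cexp (-psm d)) := by ring
      _ = 1 := by rw [hw, cexp_mul_neg, one_mul]

theorem J_left (h : SIO e ε₀ M P) (a b : CT) (z : ℂ) (k : ℤ) (c d : ℕ → ℂ) (w : CT)
    (hc : Summable fun n => ‖c n‖) (hd : Summable fun n => ‖d n‖) (hk : 0 ≤ k)
    (hf : a - algebraMap ℂ CT z =
      (b - algebraMap ℂ CT z) * fourier k * cexp (ps c) * cexp (psm d))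
    (hw : (b - algebraMap ℂ CT z) * w = 1) :
    Jop M P k c d w * ((M a * P + M b * (1 - P)) - z • (1 : X →L[ℂ] X)) = 1 := by
  obtain ⟨hPP, h2, -, -⟩ := Alg.main X e ε₀ M P h
  have k1 := (h2 c hc).1
  have k4 := (h2 (fun n => -d n) (by simpa using hd)).2
  rw [← Fin.psm_neg d hd] at k4
  have e1 : M (cexp (-psm d)) * M (fourier k * cexp (ps c) * cexp (psm d)) =
      M (fourier k * cexp (ps c)) := by
    rw [← h.mul]
    congr 1
    calc cexp (-psm d) * (fourier k * cexp (ps c) * cexp (psm d))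
        = fourier k * cexp (ps c) * (cexp (psm d) * cexp (-psm d)) := by ring
      _ = _ := by rw [cexp_mul_neg, mul_one]
  rw [sub_factor h a b z (fourier k * cexp (ps c) * cexp (psm d)) (by rw [hf]; ring), Jop]
  refine ring_left P _ _ _ _ _ _ ?_ k4 ?_ ?_ ?_
  · rw [e1]
    exact up_mul h (four_up h hk) k1
  · rw [e1, ← h.mul, ← h.one]
    congr 1
    calc cexp (-ps c) * fourier (-k) * (fourier k * cexp (ps c))
        = (fourier k * fourier (-k)) * (cexp (ps c) * cexp (-ps c)) := by ring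
      _ = 1 := by rw [fourier_mul_neg, cexp_mul_neg, one_mul]
  · rw [← h.mul, cexp_mul_neg, h.one]
  · rw [← h.mul, mul_comm, hw, h.one]

end

/-- the majorant of `log⁺ ‖(z - A)⁻¹‖` -/
def Hfun (a b : CT) (L q C D : ℝ) (z : ℂ) : ℝ≥0∞ :=
  ENNReal.ofReal D + 2 * (ENNReal.ofReal C * (HH a L q z + HH b L q z))

theorem lint_Hfun (a b : CT) (L q C D : ℝ) (hL : 0 < L) (hq0 : 0 < q) (hq2 : 2 * q ^ 2 < 1)
    (R : ℝ) : ∫⁻ z in ball (0:ℂ) R, Hfun a b L q C D z ≠ ⊤ := by
  unfold Hfun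
  rw [lintegral_add_left measurable_const, lintegral_const, Measure.restrict_apply_univ,
    lintegral_const_mul' _ _ (by norm_num), lintegral_const_mul' _ _ ENNReal.ofReal_ne_top,
    lintegral_add_left (measurable_HH a L q)]
  refine (ENNReal.add_lt_top.2 ⟨ENNReal.mul_lt_top ENNReal.ofReal_lt_top measure_ball_lt_top,
    ENNReal.mul_lt_top (by norm_num) (ENNReal.mul_lt_top ENNReal.ofReal_lt_top
    (ENNReal.add_lt_top.2 ⟨?_, ?_⟩))⟩).ne
  · exact lt_top_iff_ne_top.mpr (lintegral_HH a L q hL hq0 hq2 R)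
  · exact lt_top_iff_ne_top.mpr (lintegral_HH b L q hL hq0 hq2 R)

section

variable {X : Type} [NormedAddCommGroup X] [NormedSpace ℂ X] [CompleteSpace X]
variable {e : ℤ → X} {ε₀ : X →L[ℂ] ℂ} {M : CT → (X →L[ℂ] X)} {P : X →L[ℂ] X}

/-- the data of a singular integral operator -/
theorem sio_data (h : SIO e ε₀ M P)
    (a b : CT) (L q : ℝ) (hL : 0 < L) (hq : 1 / 2 ≤ q) (hq2 : 2 * q ^ 2 < 1)
    (ha : HD (rl a) L q) (hb : HD (rl b) L q) (R : ℝ) :
    ∃ C D : ℝ, Data (M a * P + M b * (1 - P) : X →L[ℂ] X) (range a ∪ range b) R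
      (Hfun a b L q C D) := by
  have hq0 : 0 < q := by linarith
  obtain ⟨K, hK, hbd⟩ := h.bound
  obtain ⟨C, hC, hfac⟩ := Fac.main a b L q hL hq hq2 ha hb R
  obtain ⟨D, hD⟩ : ∃ D : ℝ, D = Real.posLog (K ^ 3 * (‖P‖ + ‖(1 - P : X →L[ℂ] X)‖)) := ⟨_, rfl⟩
  have hD0 : 0 ≤ D := hD ▸ Real.posLog_nonneg
  refine ⟨C, D, measure_union_null (volume_range a L q hL hq0 hq2 ha)
    (volume_range b L q hL hq0 hq2 hb), lint_Hfun a b L q C D hL hq0 hq2 R, ?_⟩
  intro z hzR hz
  rw [mem_union, not_or] at hz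
  obtain ⟨k, c, d, w, hc, hd, h1, h2, h3⟩ := hfac z hzR (fun t ht => hz.1 ⟨t, ht⟩)
    (fun t ht => hz.2 ⟨t, ht⟩)
  rcases lt_trichotomy k 0 with hk | hk | hk
  · left
    obtain ⟨x, hx, hxe⟩ := Fin.eig Alg.main h a b z k c d hc hd hk h1
    refine ⟨Jop M P k c d w, x, J_right h a b z k c d w hc hd hk.le h1 h2, hx, ?_⟩
    rw [sub_apply, hxe]
    simp
  · right; right
    rw [hk] at h1
    obtain ⟨g1, g2⟩ := Fin.inv Alg.main h K hK hbd a b z c d w hc hd h1 h2
    refine ⟨g1, ?_⟩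
    have g3 : Real.posLog ‖resolvent (M a * P + M b * (1 - P) : X →L[ℂ] X) z‖ ≤
        D + 2 * (‖ps c‖ + ‖psm d‖ + Real.posLog ‖w‖) := by
      refine (Real.posLog_le_posLog (norm_nonneg _) g2).trans ?_
      refine Real.posLog_mul.trans ?_
      rw [← hD]
      refine add_le_add le_rfl (Real.posLog_mul.trans ?_)
      have g4 : Real.posLog (Real.exp (2 * (‖ps c‖ + ‖psm d‖))) =
          2 * (‖ps c‖ + ‖psm d‖) := by
        rw [Real.posLog, Real.log_exp]
        exact max_eq_right (by positivity)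
      rw [g4]
      have g5 : 0 ≤ Real.posLog ‖w‖ := Real.posLog_nonneg
      linarith
    refine (ENNReal.ofReal_le_ofReal g3).trans ?_
    have g6 : 0 ≤ ‖ps c‖ + ‖psm d‖ + Real.posLog ‖w‖ := by
      have g5 : 0 ≤ Real.posLog ‖w‖ := Real.posLog_nonneg
      positivity
    rw [ENNReal.ofReal_add hD0 (by positivity), ENNReal.ofReal_mul (by norm_num)]
    unfold Hfun
    refine add_le_add le_rfl ?_
    rw [ENNReal.ofReal_ofNat]
    exact mul_le_mul' le_rfl h3
  · right; left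
    obtain ⟨y, hy, hye⟩ := Fin.coeig Alg.main h a b z k c d w hc hd hk h1 h2
    refine ⟨Jop M P k c d w, y, J_left h a b z k c d w hc hd hk.le h1 h2, hy, ?_⟩
    ext x
    have := congrArg (fun S : X →L[ℂ] ℂ => S x) hye
    change y ((M a * P + M b * (1 - P)) x) = z * y x at this
    change y ((M a * P + M b * (1 - P)) x - z • x) = 0
    rw [map_sub, map_smul, this, smul_eq_mul, sub_self]

end

end Pool.Agent.U523.SF
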