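import Pool.Agent.U523.SF.Sio

/-!
Singular integral operators: Weyl spectrum and the theorem on perturbations.
-/

set_option autoImplicit false

noncomputable section

open MeasureTheory AddCircle Set Filter Topology Metric
open scoped ENNReal NNReal

namespace Pool.Agent.U523.SF
open Pool.Agent.Y271.CO Pool.Agent.Y283.TO Pool.Agent.R276.SI

section

variable {X : Type} [NormedAddCommGroup X] [NormedSpace ℂ X]
variable {e : ℤ → X} {ε₀ : X →L[ℂ] ℂ} {M : CT → (X →L[ℂ] X)} {P : X →L[ℂ] X}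

theorem lin_indep (h : SIO e ε₀ M P) : LinearIndependent ℂ e := by
  rw [linearIndependent_iff']
  intro s g hg i hi
  have h1 : ε₀ (M (fourier (-i)) (∑ j ∈ s, g j • e j)) = 0 := by rw [hg, map_zero, map_zero]
  rw [map_sum, map_sum, Finset.sum_eq_single i] at h1
  · rw [map_smul, h.shift, add_neg_cancel, map_smul, h.coord, if_pos rfl, smul_eq_mul,
      mul_one] at h1
    exact h1
  · intro j _ hj
    rw [map_smul, h.shift, map_smul, h.coord, if_neg (by omega), smul_zero]
  · intro hi'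
    exact absurd hi hi'

/-- an infinite linearly independent family in a subspace -/
theorem not_finite {V : Submodule ℂ X} {v : ℕ → X} (hv : LinearIndependent ℂ v)
    (hV : ∀ n, v n ∈ V) : ¬ FiniteDimensional ℂ V := by
  intro hf
  have h1 : LinearIndependent ℂ (fun n => (⟨v n, hV n⟩ : V)) := by
    refine LinearIndependent.of_comp V.subtype ?_
    exact hv
  have := h1.finite
  exact _root_.not_finite ℕ

end

section

variable {X : Type} [NormedAddCommGroup X] [NormedSpace ℂ X] [CompleteSpace X]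
variable {e : ℤ → X} {ε₀ : X →L[ℂ] ℂ} {M : CT → (X →L[ℂ] X)} {P : X →L[ℂ] X}

omit [CompleteSpace X] in
/-- points with an eigenspace of infinite dimension are in the Weyl spectrum -/
theorem weyl_of_ker (A : X →L[ℂ] X) (c : ℂ) {v : ℕ → X} (hv : LinearIndependent ℂ v)
    (hA : ∀ n, A (v n) = c • v n) : c ∈ weyl A := by
  intro L hL
  rw [spectrum.mem_iff]
  intro hu
  obtain ⟨u, hu⟩ := hu
  have hinj : ∀ x, (A + L) x = c • x → x = 0 := by
    intro x hx
    have h1 : (u : X →L[ℂ] X) x = 0 := by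
      rw [hu, sub_apply, hx, Algebra.algebraMap_eq_smul_one]
      simp
    have h2 : ((u⁻¹ : (X →L[ℂ] X)ˣ) : X →L[ℂ] X) ((u : X →L[ℂ] X) x) = x :=
      congrArg (fun S : X →L[ℂ] X => S x) (Units.inv_mul u)
    rw [h1, map_zero] at h2
    exact h2.symm
  obtain ⟨V, hV⟩ : ∃ V : Submodule ℂ X, V = Submodule.span ℂ (range v) := ⟨_, rfl⟩
  have hAV : ∀ x ∈ V, A x = c • x := by
    intro x hx
    rw [hV] at hx
    induction hx using Submodule.span_induction with
    | mem x hx =>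
      obtain ⟨n, rfl⟩ := hx
      exact hA n
    | zero => simp
    | add x y _ _ h1 h2 => rw [map_add, h1, h2, smul_add]
    | smul r x _ h1 => rw [map_smul, h1, smul_comm]
  refine not_finite (V := V) hv (fun n => hV ▸ Submodule.subset_span ⟨n, rfl⟩) ?_
  let f : V →ₗ[ℂ] LinearMap.range (L : X →ₗ[ℂ] X) :=
    LinearMap.codRestrict _ ((L : X →ₗ[ℂ] X).domRestrict V) fun x => LinearMap.mem_range_self _ _
  have hf : Function.Injective f := by
    rw [← LinearMap.ker_eq_bot, LinearMap.ker_eq_bot']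
    intro x hx
    have h1 : L (x : X) = 0 := congrArg Subtype.val hx
    apply Subtype.ext
    refine hinj x ?_
    rw [add_apply, h1, add_zero]
    exact hAV x x.2
  exact FiniteDimensional.of_injective f hf

/-- the points of a connected nontrivial part of the spectrum are accumulation points -/
theorem weyl_of_conn (A : X →L[ℂ] X) (f : CT) {R : ℝ} (hR : ‖f‖ < R)
    (h0 : volume (spectrum ℂ A ∩ ball 0 R) = 0) (hs : ∀ t, f t ∈ spectrum ℂ A)
    {t₀ : UnitAddCircle} (ht : f t₀ ≠ f 0) :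
    (weyl A ∩ ball 0 R).Nonempty ∧ (weyl A).Nontrivial := by
  have hpre : IsPreconnected (range f) := isPreconnected_range f.continuous
  have hnt : (range f).Nontrivial := ⟨f t₀, ⟨t₀, rfl⟩, f 0, ⟨0, rfl⟩, ht⟩
  have hacc : ∀ t, f t ∈ weyl A := by
    intro t
    refine acc_weyl A isOpen_ball h0 ?_ ?_
    · rw [mem_ball_zero_iff]
      exact (f.norm_coe_le_norm t).trans_lt hR
    · refine AccPt.mono (hpre.preperfect_of_nontrivial hnt _ ⟨t, rfl⟩) ?_
      rw [principal_mono]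
      rintro _ ⟨s, rfl⟩
      exact hs s
  refine ⟨⟨f 0, hacc 0, ?_⟩, ⟨f t₀, hacc t₀, f 0, hacc 0, ht⟩⟩
  rw [mem_ball_zero_iff]
  exact (f.norm_coe_le_norm 0).trans_lt hR

theorem sio_spec (h : SIO e ε₀ M P) (a b : CT) :
    (∀ t, a t ∈ spectrum ℂ (M a * P + M b * (1 - P) : X →L[ℂ] X)) ∧
    (∀ t, b t ∈ spectrum ℂ (M a * P + M b * (1 - P) : X →L[ℂ] X)) :=
  ⟨fun t hz => (Ess.main X e ε₀ M P h a b (a t) hz).1 t rfl,
    fun t hz => (Ess.main X e ε₀ M P h a b (b t) hz).2 t rfl⟩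

theorem const_eq {f : CT} (hf : ∀ t, f t = f 0) : f = (f 0) • (1 : CT) := by
  ext t
  simpa using hf t

theorem sio_weyl (h : SIO e ε₀ M P) (a b : CT) {R : ℝ} (hRa : ‖a‖ < R) (hRb : ‖b‖ < R)
    (hA : ∀ c : ℂ, (M a * P + M b * (1 - P) : X →L[ℂ] X) ≠ c • (1 : X →L[ℂ] X))
    (h0 : volume (spectrum ℂ (M a * P + M b * (1 - P) : X →L[ℂ] X) ∩ ball 0 R) = 0) :
    (weyl (M a * P + M b * (1 - P) : X →L[ℂ] X) ∩ ball 0 R).Nonempty ∧
      (weyl (M a * P + M b * (1 - P) : X →L[ℂ] X)).Nontrivial := by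
  obtain ⟨hsa, hsb⟩ := sio_spec h a b
  by_cases ha : ∀ t, a t = a 0
  swap
  · push Not at ha
    obtain ⟨t, ht⟩ := ha
    exact weyl_of_conn _ a hRa h0 hsa ht
  by_cases hb : ∀ t, b t = b 0
  swap
  · push Not at hb
    obtain ⟨t, ht⟩ := hb
    exact weyl_of_conn _ b hRb h0 hsb ht
  have e1 : M a = (a 0) • (1 : X →L[ℂ] X) := by
    conv_lhs => rw [const_eq ha]
    rw [h.smul, h.one]
  have e2 : M b = (b 0) • (1 : X →L[ℂ] X) := by
    conv_lhs => rw [const_eq hb]
    rw [h.smul, h.one]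
  have hne : a 0 ≠ b 0 := by
    intro hab
    apply hA (a 0)
    rw [e1, e2, ← hab, smul_mul_assoc, smul_mul_assoc, one_mul, one_mul, ← smul_add,
      add_sub_cancel]
  have hlin := lin_indep h
  have hwa : a 0 ∈ weyl (M a * P + M b * (1 - P) : X →L[ℂ] X) := by
    refine weyl_of_ker _ _ (v := fun n : ℕ => e n) (hlin.comp _ Nat.cast_injective) fun n => ?_
    change M a (P (e n)) + M b (e n - P (e n)) = _
    rw [h.proj, if_pos (by omega), sub_self, map_zero, add_zero, e1]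
    simp
  have hwb : b 0 ∈ weyl (M a * P + M b * (1 - P) : X →L[ℂ] X) := by
    refine weyl_of_ker _ _ (v := fun n : ℕ => e (-1 - n)) (hlin.comp (fun n : ℕ => (-1 - n : ℤ))
      (fun m n hmn => by simp only at hmn; omega)) fun n => ?_
    change M a (P (e _)) + M b (e _ - P (e _)) = _
    rw [h.proj, if_neg (by omega), map_zero, zero_add, sub_zero, e2]
    simp
  refine ⟨⟨a 0, hwa, ?_⟩, ⟨a 0, hwa, b 0, hwb, hne⟩⟩
  rw [mem_ball_zero_iff]
  exact (a.norm_coe_le_norm 0).trans_lt hRa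

/-- scalar plus finite rank -/
theorem scalar_finite {v : ℕ → X} (hv : LinearIndependent ℂ v) (c κ : ℂ) (K : X →L[ℂ] X)
    (hK : FiniteDimensional ℂ (LinearMap.range (K : X →ₗ[ℂ] X))) :
    (∃ c' : ℂ, c • (1 : X →L[ℂ] X) + κ • K = c' • (1 : X →L[ℂ] X)) ∨
      HasHyper (c • (1 : X →L[ℂ] X) + κ • K) := by
  have h0 : (0:ℂ) ∈ spectrum ℂ ((0 : X →L[ℂ] X) + K) :=
    weyl_of_ker (0 : X →L[ℂ] X) 0 hv (fun n => by simp) K hK
  have hker : ∃ x : X, x ≠ 0 ∧ K x = 0 := by
    by_contra hcon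
    push Not at hcon
    have hinj : Function.Injective ((K : X →ₗ[ℂ] X).rangeRestrict) := by
      rw [← LinearMap.ker_eq_bot, LinearMap.ker_eq_bot']
      intro x hx
      by_contra hx0
      exact hcon x hx0 (congrArg Subtype.val hx)
    have hfin : FiniteDimensional ℂ X := FiniteDimensional.of_injective _ hinj
    have := hv.finite
    exact _root_.not_finite ℕ
  obtain ⟨x, hx, hKx⟩ := hker
  refine hyper_of_eig _ (z := c) hx ?_
  rw [add_apply, smul_apply, smul_apply, hKx, smul_zero, add_zero]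
  simp

/-- **Perturbations of singular integral operators.** -/
theorem sio_main (h : SIO e ε₀ M P)
    (a b : CT) (L q : ℝ) (hL : 0 < L) (hq : 1 / 2 ≤ q) (hq2 : 2 * q ^ 2 < 1)
    (ha : HD (rl a) L q) (hb : HD (rl b) L q) :
    (∀ z ∈ spectrum ℂ (M a * P + M b * (1 - P) : X →L[ℂ] X), z ∉ range a → z ∉ range b →
      ∀ K : X →L[ℂ] X, Approximable K →
        (∃ c : ℂ, (M a * P + M b * (1 - P)) + K = c • (1 : X →L[ℂ] X)) ∨
          HasHyper ((M a * P + M b * (1 - P)) + K)) ∧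
    ∀ K : X →L[ℂ] X, FiniteDimensional ℂ (LinearMap.range (K : X →ₗ[ℂ] X)) →
      dimH {κ : ℂ | ¬ ((∃ c : ℂ, (M a * P + M b * (1 - P)) + κ • K = c • (1 : X →L[ℂ] X)) ∨
        HasHyper ((M a * P + M b * (1 - P)) + κ • K))} = 0 := by
  constructor
  · intro z hz hza hzb K hK
    obtain ⟨C, D, hD⟩ := sio_data h a b L q hL hq hq2 ha hb ‖z‖
    refine gen_index hD hz le_rfl ?_ K hK
    rw [mem_union, not_or]
    exact ⟨hza, hzb⟩
  · intro K hK
    by_cases hA : ∃ c : ℂ, (M a * P + M b * (1 - P) : X →L[ℂ] X) = c • (1 : X →L[ℂ] X)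
    · obtain ⟨c, hc⟩ := hA
      have hE : {κ : ℂ | ¬ ((∃ c : ℂ, (M a * P + M b * (1 - P)) + κ • K =
          c • (1 : X →L[ℂ] X)) ∨ HasHyper ((M a * P + M b * (1 - P)) + κ • K))} = ∅ := by
        ext κ
        simp only [mem_ofPred_eq, mem_empty_iff_false, iff_false, not_not]
        rw [hc]
        exact scalar_finite ((lin_indep h).comp (fun n : ℕ => (n : ℤ)) Nat.cast_injective) c κ K hK
      rw [hE, dimH_empty]
    · push Not at hA
      obtain ⟨C, D, hD⟩ := sio_data h a b L q hL hq hq2 ha hb (‖a‖ + ‖b‖ + 1)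
      refine gen_finite hD (fun h0 => sio_weyl h a b ?_ ?_ hA h0) K hK
      · have := norm_nonneg b
        linarith
      · have := norm_nonneg a
        linarith

end

end Pool.Agent.U523.SF
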