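import Pool.Agent.U523.SF.SioW
import Pool.Agent.U523.SF.Gen2

/-!
Toeplitz operators on complemented spaces `P X`.
-/

set_option autoImplicit false

noncomputable section

open MeasureTheory AddCircle Set Filter Topology Metric
open scoped ENNReal NNReal

namespace Pool.Agent.U523.SF
open Pool.Agent.Y271.CO Pool.Agent.Y283.TO Pool.Agent.R276.SI

variable {X : Type} [NormedAddCommGroup X] [NormedSpace ℂ X]
variable {Y : Type} [NormedAddCommGroup Y] [NormedSpace ℂ Y]
variable {e : ℤ → X} {ε₀ : X →L[ℂ] ℂ} {M : CT → (X →L[ℂ] X)} {P : X →L[ℂ] X}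

section toep

variable (j : Y →L[ℂ] X) (p : X →L[ℂ] Y)

/-- the compression -/
def toep (S : X →L[ℂ] X) : Y →L[ℂ] Y := p.comp (S.comp j)

theorem toep_apply (S : X →L[ℂ] X) (y : Y) : toep j p S y = p (S (j y)) := rfl

/-- `A = S P + β (1 - P)` -/
structure Tri (A S : X →L[ℂ] X) (P : X →L[ℂ] X) (β : ℂ) : Prop where
  pj : ∀ y, p (j y) = y
  jp : ∀ x, j (p x) = P x
  A : ∀ x, A x = S (P x) + β • (x - P x)

variable {j p} {A S : X →L[ℂ] X} {β : ℂ}

theorem Tri.Pj (h : Tri j p A S P β) (y : Y) : P (j y) = j y := by rw [← h.jp, h.pj]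
theorem Tri.pP (h : Tri j p A S P β) (x : X) : p (P x) = p x := by rw [← h.jp, h.pj]
theorem Tri.PP (h : Tri j p A S P β) (x : X) : P (P x) = P x := by rw [← h.jp x, h.Pj]

theorem Tri.pA (h : Tri j p A S P β) (z : ℂ) (x : X) :
    p (A x - z • x) = toep j p S (p x) - z • p x := by
  rw [h.A, map_sub, map_add, map_smul, map_smul, map_sub, h.pP, sub_self, smul_zero, add_zero,
    toep_apply, h.jp]

theorem Tri.AQ (h : Tri j p A S P β) (z : ℂ) (x : X) :
    A (x - P x) - z • (x - P x) = (β - z) • (x - P x) := by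
  rw [h.A, map_sub, h.PP, sub_self, map_zero, zero_add, sub_zero, sub_smul]

theorem tri_eig (h : Tri j p A S P β) {z : ℂ} (hz : β ≠ z) {x : X} (hx : x ≠ 0)
    (hA : A x - z • x = 0) : p x ≠ 0 ∧ toep j p S (p x) - z • p x = 0 := by
  constructor
  · intro h0
    have h1 : P x = 0 := by rw [← h.jp, h0, map_zero]
    rw [h.A, h1, map_zero, zero_add, sub_zero, ← sub_smul, smul_eq_zero, sub_eq_zero] at hA
    exact hA.elim hz hx
  · rw [← h.pA, hA, map_zero]

theorem tri_right (h : Tri j p A S P β) {z : ℂ} {J : X →L[ℂ] X}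
    (hJ : ∀ w, A (J w) - z • J w = w) (y : Y) :
    toep j p S (p (J (j y))) - z • p (J (j y)) = y := by
  rw [← h.pA, hJ, h.pj]

theorem tri_coeig (h : Tri j p A S P β) {z : ℂ} (hz : β ≠ z) {y₀ : X →L[ℂ] ℂ} (hy : y₀ ≠ 0)
    (hA : ∀ x, y₀ (A x - z • x) = 0) :
    y₀.comp j ≠ 0 ∧ ∀ y, y₀ (j (toep j p S y - z • y)) = 0 := by
  have h1 : ∀ x, y₀ x = y₀ (P x) := by
    intro x
    have h2 := hA (x - P x)
    rw [h.AQ, map_smul, smul_eq_zero, sub_eq_zero, map_sub, sub_eq_zero] at h2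
    exact h2.resolve_left hz
  constructor
  · intro h0
    apply hy
    ext x
    rw [h1, ← h.jp]
    exact congrArg (fun g : Y →L[ℂ] ℂ => g (p x)) h0
  · intro y
    have h2 := h.pA z (j y)
    rw [h.pj] at h2
    rw [← h2, h.jp, ← h1, hA]

theorem tri_left (h : Tri j p A S P β) {z : ℂ} (hz : β ≠ z) {J : X →L[ℂ] X}
    (hJ : ∀ w, J (A w - z • w) = w) (y : Y) : p (J (j (toep j p S y - z • y))) = y := by
  have h2 := h.pA z (j y)
  rw [h.pj] at h2
  rw [← h2, h.jp]
  obtain ⟨w, hw⟩ : ∃ w, w = A (j y) - z • j y := ⟨_, rfl⟩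
  rw [← hw]
  have hbz : β - z ≠ 0 := sub_ne_zero.2 hz
  have h3 : (β - z) • J (w - P w) = w - P w := by
    rw [← map_smul, ← h.AQ, hJ]
  have h4 : p (J (w - P w)) = 0 := by
    have h5 : (β - z) • p (J (w - P w)) = 0 := by
      rw [← map_smul, h3, map_sub, h.pP, sub_self]
    exact (smul_eq_zero.1 h5).resolve_left hbz
  have h5 : P w = w - (w - P w) := by abel
  rw [h5, map_sub, map_sub, h4, sub_zero, hw, hJ, h.pj]

theorem tri_inv (h : Tri j p A S P β) {z : ℂ} (hz : β ≠ z) (hzA : z ∈ resolventSet ℂ A) :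
    z ∈ resolventSet ℂ (toep j p S) ∧
      ‖resolvent (toep j p S) z‖ ≤ ‖p‖ * ‖j‖ * ‖resolvent A z‖ := by
  obtain ⟨h1, h2⟩ := exists_two A z hzA
  obtain ⟨h3, h4⟩ := inv_two (toep j p S) (p.comp ((-resolvent A z).comp j)) z
    (fun y => tri_right h (J := -resolvent A z) h1 y)
    (fun y => tri_left h hz (J := -resolvent A z) h2 y)
  refine ⟨h3, ?_⟩
  rw [h4, norm_neg]
  calc ‖p.comp ((-resolvent A z).comp j)‖ ≤ ‖p‖ * ‖(-resolvent A z).comp j‖ :=
        ContinuousLinearMap.opNorm_comp_le _ _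
    _ ≤ ‖p‖ * (‖-resolvent A z‖ * ‖j‖) := by
        gcongr
        exact ContinuousLinearMap.opNorm_comp_le _ _
    _ = ‖p‖ * ‖j‖ * ‖resolvent A z‖ := by rw [norm_neg]; ring

/-- the converse -/
theorem tri_inv' (h : Tri j p A S P β) {z : ℂ} (hz : β ≠ z)
    (hzT : z ∈ resolventSet ℂ (toep j p S)) : z ∈ resolventSet ℂ A := by
  obtain ⟨h1, h2⟩ := exists_two (toep j p S) z hzT
  obtain ⟨G, hG⟩ : ∃ G, G = -resolvent (toep j p S) z := ⟨_, rfl⟩
  have h1' : ∀ y, toep j p S (G y) - z • G y = y := by rw [hG]; exact h1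
  have h2' : ∀ y, G (toep j p S y - z • y) = y := by rw [hG]; exact h2
  have hbz : β - z ≠ 0 := sub_ne_zero.2 hz
  obtain ⟨s, hs⟩ : ∃ s : X →L[ℂ] X, s = j.comp (G.comp p) := ⟨_, rfl⟩
  have hsx : ∀ x, s x = j (G (p x)) := fun x => by rw [hs]; rfl
  have hPs : ∀ x, P (s x) = s x := fun x => by rw [hsx, h.Pj]
  obtain ⟨v, hv⟩ : ∃ v : X →L[ℂ] X, v = s + (β - z)⁻¹ • ((1 - P) * (1 - S * s)) := ⟨_, rfl⟩
  have hvx : ∀ x, v x = s x + (β - z)⁻¹ • ((x - S (s x)) - P (x - S (s x))) := fun x => by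
    rw [hv]; rfl
  refine (inv_two A v z ?_ ?_).1
  · intro x
    obtain ⟨r, hr⟩ : ∃ r, r = x - S (s x) := ⟨_, rfl⟩
    have e1 := hvx x
    rw [← hr] at e1
    have e2 : P (v x) = s x := by
      rw [e1, map_add, map_smul, map_sub, hPs, h.PP, sub_self, smul_zero, add_zero]
    have e3 : P (S (s x)) = P x + z • s x := by
      have e4 := congrArg (fun y => j y) (h1' (p x))
      simp only [map_sub, map_smul] at e4
      rw [h.jp, toep_apply, h.jp, ← hsx] at e4
      rw [← e4]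
      abel
    have e5 : v x - s x = (β - z)⁻¹ • (r - P r) := by rw [e1]; abel
    have e6 : (β - z) • (v x - s x) = r - P r := by rw [e5, smul_inv_smul₀ hbz]
    calc A (v x) - z • v x = S (s x) + β • (v x - s x) - z • v x := by rw [h.A, e2]
      _ = S (s x) + (β - z) • (v x - s x) - z • s x := by
          rw [sub_smul, smul_sub z]
          abel
      _ = S (s x) + (r - P r) - z • s x := by rw [e6]
      _ = x - P x + P (S (s x)) - z • s x := by
          rw [hr, map_sub]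
          abel
      _ = x := by rw [e3]; abel
  · intro x
    obtain ⟨w, hw⟩ : ∃ w, w = A x - z • x := ⟨_, rfl⟩
    have e1 : s w = P x := by rw [hsx, hw, h.pA, h2', h.jp]
    have e2 : w - S (s w) = β • (x - P x) - z • x := by
      rw [e1, hw, h.A]
      abel
    have e3 : (w - S (s w)) - P (w - S (s w)) = (β - z) • (x - P x) := by
      rw [e2, map_sub, map_smul, map_smul, map_sub, h.PP, sub_self, smul_zero, sub_smul, smul_sub z]
      abel
    rw [← hw, hvx, e3, inv_smul_smul₀ hbz, e1]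
    abel

end toep

end Pool.Agent.U523.SF
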